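import Pool.Agent.Helper53.TK.PlR

/-! Plane facts, part 5: `e_3 = 5` — all linear relations are Koszul relations of `E_2`, so they vanish at some point. -/

set_option autoImplicit false

namespace Pool.Agent.Helper53.TK

open MvPolynomial
open scoped BigOperators
open Pool.Agent.Helper71.FL (w12 pf ct Dec Closed dd at0 emb res)
open Pool.Agent.Helper93 (lsub lmap OF pb)
open Pool.Agent.Helper71.FC
open Pool.Agent.Helper18.LB (finrank_homog finite_homog)
open Pool.Agent.Helper12.Z4 (KX RL mem_KX mem_RL)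

variable {θ : F2 3}

theorem nz_entry (hF : Fol θ) : ∃ i j, θ i j ≠ 0 := by
  by_contra hcon
  push Not at hcon
  exact not_isUnit_zero (hF.prim 0 (fun i j => by rw [hcon]))

/-- `γ(σ, ξ)` -/
theorem exG (hF : Fol θ) {σ : F1 3} (hσ : σ ∈ EE θ 2) {ξ : F1 3} (hξ : ξ ∈ EE θ 3) :
    ∃ γ : Pn 3, γ.IsHomogeneous 2 ∧ ∀ i j, w11 σ ξ i j = γ * θ i j := by
  obtain ⟨γ, h1, -, h2⟩ := Pool.Agent.Helper28.Z4.exists_gam hF hσ hξ
  exact ⟨γ, h1, h2⟩

theorem uniqG (hF : Fol θ) {a b : Pn 3} {A : F2 3} (ha : ∀ i j, A i j = a * θ i j)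
    (hb : ∀ i j, A i j = b * θ i j) : a = b := by
  obtain ⟨i, j, hij⟩ := nz_entry hF
  apply mul_right_cancel₀ hij
  rw [← ha, hb]

/-- `ξ ↦ γ(σ, ξ)` as a linear map -/
noncomputable def Gm (hF : Fol θ) {σ : F1 3} (hσ : σ ∈ EE θ 2) :
    EE θ 3 →ₗ[ℂ] homogeneousSubmodule (Fin 3) ℂ 2 where
  toFun ξ := ⟨(exG hF hσ ξ.2).choose, (exG hF hσ ξ.2).choose_spec.1⟩
  map_add' := by
    intro ξ ζ
    apply Subtype.ext
    refine uniqG hF (exG hF hσ (ξ + ζ).2).choose_spec.2 fun i j => ?_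
    have e1 := (exG hF hσ ξ.2).choose_spec.2 i j
    have e2 := (exG hF hσ ζ.2).choose_spec.2 i j
    show w11 σ (ξ.1 + ζ.1) i j = ((exG hF hσ ξ.2).choose + (exG hF hσ ζ.2).choose) * _
    have e3 : w11 σ (ξ.1 + ζ.1) i j = w11 σ ξ.1 i j + w11 σ ζ.1 i j := by
      unfold w11
      rw [Pi.add_apply, Pi.add_apply]
      ring
    rw [e3, e1, e2]
    ring
  map_smul' := by
    intro c ξ
    apply Subtype.ext
    refine uniqG hF (exG hF hσ (c • ξ).2).choose_spec.2 fun i j => ?_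
    have e1 := (exG hF hσ ξ.2).choose_spec.2 i j
    show w11 σ (c • ξ.1) i j = (c • (exG hF hσ ξ.2).choose) * _
    have e3 : w11 σ (c • ξ.1) i j = C c * w11 σ ξ.1 i j := by
      unfold w11
      rw [Pi.smul_apply, Pi.smul_apply, smul_eq_C_mul, smul_eq_C_mul]
      ring
    rw [e3, e1, smul_eq_C_mul]
    ring

theorem Gm_spec (hF : Fol θ) {σ : F1 3} (hσ : σ ∈ EE θ 2) (ξ : EE θ 3) (i j : Fin 3) :
    w11 σ ξ.1 i j = (Gm hF hσ ξ).1 * θ i j := (exG hF hσ ξ.2).choose_spec.2 i j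

theorem Gm_eq (hF : Fol θ) {σ : F1 3} (hσ : σ ∈ EE θ 2) (ξ : EE θ 3) {a : Pn 3}
    (ha : ∀ i j, w11 σ ξ.1 i j = a * θ i j) : (Gm hF hσ ξ).1 = a :=
  uniqG hF (Gm_spec hF hσ ξ) ha

/-- forms proportional to `σ` -/
theorem of_Gm_zero (hF : Fol θ) {σ : F1 3} (hσ : σ ∈ EE θ 2) (hc : CopF σ) (ξ : EE θ 3)
    (h : Gm hF hσ ξ = 0) : ∃ l : Pn 3, l.IsHomogeneous 1 ∧ ∀ i, ξ.1 i = l * σ i := by
  have h1 : ∀ i j, σ i * ξ.1 j = σ j * ξ.1 i := by
    intro i j
    have := Gm_spec hF hσ ξ i j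
    rw [h] at this
    have e : w11 σ ξ.1 i j = 0 := this.trans (zero_mul _)
    exact sub_eq_zero.mp e
  obtain ⟨g, hg⟩ := prop_of_cop hc h1
  obtain ⟨j0, hj0⟩ := nz_of_cop hc
  refine ⟨g, ?_, hg⟩
  apply hom_quot' (hσ.1 j0) hj0
  rw [← hg j0]
  exact ξ.2.1 j0

theorem Gm_mul (hF : Fol θ) {σ : F1 3} (hσ : σ ∈ EE θ 2) (l : homogeneousSubmodule (Fin 3) ℂ 1)
    (hm : SA σ 1 l ∈ EE θ 3) : Gm hF hσ ⟨SA σ 1 l, hm⟩ = 0 := by
  have h2 : (Gm hF hσ ⟨SA σ 1 l, hm⟩).1 = 0 := by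
    apply Gm_eq
    intro i j
    show σ i * (l.1 * σ j) - σ j * (l.1 * σ i) = 0 * θ i j
    ring
  exact Subtype.ext h2

theorem SA_mem' {σ : F1 3} (hσ : σ ∈ EE θ 2) {k : ℕ} (g : homogeneousSubmodule (Fin 3) ℂ k) :
    SA σ k g ∈ EE θ (k + 2) := by
  refine ⟨fun i => ?_, fun i j l => ?_⟩
  · exact (g.2 : (g.1).IsHomogeneous k).mul (hσ.1 i)
  · have h1 := hσ.2 i j l
    unfold w12 at h1 ⊢
    rw [SA_apply, SA_apply, SA_apply]
    linear_combination g.1 * h1

/-- the kernel of `Gm` has dimension 3 -/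
theorem finrank_ker_Gm (hF : Fol θ) {σ : F1 3} (hσ : σ ∈ EE θ 2) (hc : CopF σ) :
    Module.finrank ℂ (LinearMap.ker (Gm hF hσ)) = 3 := by
  have h1 : (LinearMap.ker (Gm hF hσ)).map (EE θ 3).subtype = LinearMap.range (SA σ 1) := by
    apply le_antisymm
    · intro ζ hζ
      obtain ⟨ξ, hξ, rfl⟩ := Submodule.mem_map.mp hζ
      obtain ⟨l, hl, hl2⟩ := of_Gm_zero hF hσ hc ξ (LinearMap.mem_ker.mp hξ)
      exact ⟨⟨l, hl⟩, funext fun i => (hl2 i).symm⟩
    · rintro _ ⟨l, rfl⟩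
      have hm : SA σ 1 l ∈ EE θ 3 := SA_mem' hσ l
      exact Submodule.mem_map.mpr ⟨⟨SA σ 1 l, hm⟩, LinearMap.mem_ker.mpr (Gm_mul hF hσ l hm), rfl⟩
  have h2 : Function.Injective (SA σ 1) := by
    rw [← LinearMap.ker_eq_bot, LinearMap.ker_eq_bot']
    intro g hg
    obtain ⟨j0, hj0⟩ := nz_of_cop hc
    have h3 : g.1 * σ j0 = 0 := congrFun hg j0
    exact Subtype.ext ((mul_eq_zero.1 h3).resolve_right hj0)
  rw [← Submodule.finrank_map_subtype_eq, h1, LinearMap.finrank_range_of_inj h2, finrank_homog]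
  rfl

/-- the coefficients of `σ` are values of `Gm` -/
theorem sigma_mem_range (hF : Fol θ) {σ : F1 3} (hσ : σ ∈ EE θ 2) (i : Fin 3) :
    (⟨σ i, hσ.1 i⟩ : homogeneousSubmodule (Fin 3) ℂ 2) ∈ LinearMap.range (Gm hF hσ) := by
  refine ⟨⟨av θ (Pi.single i 1), av_mem_EE hF.dec hF.hom _⟩, ?_⟩
  apply Subtype.ext
  apply Gm_eq
  intro a b
  have h1 := Pool.Agent.Helper28.Z4.pair_eq hF hσ (Pi.single i 1) a b
  have h2 : pair (cv (Pi.single i 1)) σ = σ i := by
    unfold pair cv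
    rw [Finset.sum_eq_single i]
    · rw [Pi.single_eq_same, C_1, one_mul]
    · intro j _ hj
      rw [Pi.single_eq_of_ne hj, C_0, zero_mul]
    · intro h; exact absurd (Finset.mem_univ _) h
  rw [h2] at h1
  exact h1.symm

theorem pl_kos (hF : Fol θ) (h0 : EE θ 0 = ⊥) (h1 : EE θ 1 = ⊥)
    (h2 : Module.finrank ℂ (EE θ 2) = 1) (h3 : Module.finrank ℂ (EE θ 3) = 5)
    {Z : (Fin 3 → ℂ) →ₗ[ℂ] EE θ 3} (hZ : Z ∈ RL θ) : ∃ p : Fin 3 → ℂ, p ≠ 0 ∧ Z p = 0 := by
  obtain ⟨σ, hσ, hσ0⟩ := exists_sigma h2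
  have hc := cop_sigma h0 h1 hσ hσ0
  haveI := finite_EE θ 3
  haveI := finite_homog 3 2
  -- the range of `Gm` has dimension two
  have hr : Module.finrank ℂ (LinearMap.range (Gm hF hσ)) = 2 := by
    have := LinearMap.finrank_range_add_finrank_ker (Gm hF hσ)
    rw [finrank_ker_Gm hF hσ hc, h3] at this
    omega
  -- two independent coefficients of `σ`
  let s : Fin 3 → homogeneousSubmodule (Fin 3) ℂ 2 := fun i => ⟨σ i, hσ.1 i⟩
  obtain ⟨i0, hi0⟩ := nz_of_cop hc
  obtain ⟨i1, hi1⟩ : ∃ i1, ∀ c : ℂ, s i1 ≠ c • s i0 := by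
    by_contra hcon
    push Not at hcon
    have h4 : IsUnit (σ i0) := hc (σ i0) (fun i => by
      obtain ⟨c, hc⟩ := hcon i
      have h5 : σ i = c • σ i0 := congrArg Subtype.val hc
      rw [h5, smul_eq_C_mul]
      exact dvd_mul_left _ _)
    have h6 := (hσ.1 i0).totalDegree hi0
    rw [MvPolynomial.isUnit_iff_totalDegree_of_isReduced] at h4
    omega
  have hli : LinearIndependent ℂ ![s i0, s i1] := by
    rw [LinearIndependent.pair_iff]
    intro a b hab
    have hb : b = 0 := by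
      by_contra hb
      apply hi1 (-(b⁻¹ * a))
      have : b • s i1 = -(a • s i0) := by
        rw [eq_neg_iff_add_eq_zero, add_comm]
        exact hab
      calc s i1 = b⁻¹ • (b • s i1) := by rw [smul_smul, inv_mul_cancel₀ hb, one_smul]
        _ = _ := by rw [this, smul_neg, smul_smul]; exact (neg_smul _ _).symm
    refine ⟨?_, hb⟩
    rw [hb, zero_smul, add_zero] at hab
    rcases smul_eq_zero.mp hab with h | h
    · exact h
    · exact absurd (congrArg Subtype.val h) hi0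
  have hspan : LinearMap.range (Gm hF hσ) = Submodule.span ℂ (Set.range ![s i0, s i1]) := by
    symm
    apply Submodule.eq_of_le_of_finrank_eq
    · rw [Submodule.span_le]
      rintro _ ⟨i, rfl⟩
      fin_cases i
      · exact sigma_mem_range hF hσ i0
      · exact sigma_mem_range hF hσ i1
    · rw [finrank_span_eq_card hli, hr, Fintype.card_fin]
  have hval : ∀ ξ : EE θ 3, ∃ a b : ℂ, (Gm hF hσ ξ).1 = C a * σ i0 + C b * σ i1 := by
    intro ξ
    have h4 : Gm hF hσ ξ ∈ Submodule.span ℂ (Set.range ![s i0, s i1]) := by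
      rw [← hspan]
      exact ⟨ξ, rfl⟩
    obtain ⟨c, hc⟩ := (Submodule.mem_span_range_iff_exists_fun ℂ).mp h4
    refine ⟨c 0, c 1, ?_⟩
    rw [← hc, Fin.sum_univ_two]
    show c 0 • σ i0 + c 1 • σ i1 = _
    rw [smul_eq_C_mul, smul_eq_C_mul]
  -- the two coefficients are relatively prime
  have hcop : ∀ p : Pn 3, p ∣ σ i0 → p ∣ σ i1 → IsUnit p := by
    intro p hp0 hp1
    apply hc p
    intro i
    have h4 : s i ∈ Submodule.span ℂ (Set.range ![s i0, s i1]) := by
      rw [← hspan]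
      exact sigma_mem_range hF hσ i
    obtain ⟨c, hc⟩ := (Submodule.mem_span_range_iff_exists_fun ℂ).mp h4
    rw [Fin.sum_univ_two] at hc
    have h5 : c 0 • σ i0 + c 1 • σ i1 = σ i := congrArg Subtype.val hc
    rw [← h5, smul_eq_C_mul, smul_eq_C_mul]
    exact dvd_add (Dvd.dvd.mul_left hp0 _) (Dvd.dvd.mul_left hp1 _)
  choose a b hab using fun l : Fin 3 => hval (Z (Pi.single l 1))
  -- the relation
  have hrel : (∑ l, C (a l) * X l) * σ i0 + (∑ l, C (b l) * X l) * σ i1 = 0 := by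
    obtain ⟨i, j, hij⟩ := nz_entry hF
    apply mul_right_cancel₀ hij
    rw [zero_mul]
    have e1 : ∑ l, X l * w11 σ (Z (Pi.single l 1)).1 i j = 0 := by
      have e2 : ∀ l, (X l : Pn 3) * w11 σ (Z (Pi.single l 1)).1 i j =
          σ i * (X l * (Z (Pi.single l 1) : F1 3) j) - σ j * (X l * (Z (Pi.single l 1) : F1 3) i) := by
        intro l
        unfold w11
        ring
      rw [Finset.sum_congr rfl fun l _ => e2 l, Finset.sum_sub_distrib, ← Finset.mul_sum,
        ← Finset.mul_sum, RL_iff.mp hZ j, RL_iff.mp hZ i, mul_zero, mul_zero, sub_zero]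
    rw [← e1, Finset.sum_mul, Finset.sum_mul, ← Finset.sum_add_distrib, Finset.sum_mul]
    refine Finset.sum_congr rfl fun l _ => ?_
    rw [Gm_spec hF hσ, hab l]
    ring
  have hA : (∑ l, C (a l) * X l : Pn 3).IsHomogeneous 1 := by
    refine IsHomogeneous.sum _ _ _ fun l _ => ?_
    have := (isHomogeneous_C (Fin 3) (a l)).mul (isHomogeneous_X ℂ l)
    rwa [zero_add] at this
  have hB : (∑ l, C (b l) * X l : Pn 3).IsHomogeneous 1 := by
    refine IsHomogeneous.sum _ _ _ fun l _ => ?_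
    have := (isHomogeneous_C (Fin 3) (b l)).mul (isHomogeneous_X ℂ l)
    rwa [zero_add] at this
  have hB0 : (∑ l, C (b l) * X l : Pn 3) = 0 := by
    -- `σ i0` divides `B σ i1`
    have e1 : ∀ k : Fin 2, σ i0 ∣ (![σ i0, σ i1] k) * (∑ l, C (b l) * X l : Pn 3) := by
      intro k
      fin_cases k
      · exact dvd_mul_right _ _
      · refine ⟨-(∑ l, C (a l) * X l), ?_⟩
        show σ i1 * _ = _
        linear_combination hrel
    have e2 : CopF (![σ i0, σ i1] : Fin 2 → Pn 3) := fun p hp => hcop p (hp 0) (hp 1)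
    obtain ⟨g, hg⟩ := prop_of_cop (A := (![σ i0, σ i1] : Fin 2 → Pn 3))
      (B := ![(∑ l, C (b l) * X l : Pn 3), -(∑ l, C (a l) * X l : Pn 3)]) e2 (by
        intro i j
        fin_cases i <;> fin_cases j
        · rfl
        · show σ i0 * -(∑ l, C (a l) * X l : Pn 3) = σ i1 * (∑ l, C (b l) * X l : Pn 3)
          linear_combination -hrel
        · show σ i1 * (∑ l, C (b l) * X l : Pn 3) = σ i0 * -(∑ l, C (a l) * X l : Pn 3)
          linear_combination hrel
        · rfl)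
    have e3 : (∑ l, C (b l) * X l : Pn 3) = g * σ i0 := hg 0
    have e4 : g = 0 := by
      apply hom_quot0' (hσ.1 i0) hi0 (k := 1) (by norm_num)
      rw [← e3]
      exact hB
    rw [e3, e4, zero_mul]
  have hA0 : (∑ l, C (a l) * X l : Pn 3) = 0 := by
    rw [hB0, zero_mul, add_zero] at hrel
    exact (mul_eq_zero.1 hrel).resolve_right hi0
  have hcoef : ∀ c : Fin 3 → ℂ, (∑ l, C (c l) * X l : Pn 3) = 0 → ∀ l, c l = 0 := by
    intro c hc l
    have := congrArg (eval (Pi.single l (1 : ℂ))) hc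
    rw [map_sum, map_zero, Finset.sum_eq_single l] at this
    · rwa [map_mul, eval_C, eval_X, Pi.single_eq_same, mul_one] at this
    · intro j _ hj
      rw [map_mul, eval_C, eval_X, Pi.single_eq_of_ne hj, mul_zero]
    · intro h; exact absurd (Finset.mem_univ _) h
  have hG : ∀ l, Gm hF hσ (Z (Pi.single l 1)) = 0 := by
    intro l
    apply Subtype.ext
    rw [hab l, hcoef a hA0 l, hcoef b hB0 l, C_0, zero_mul, zero_mul, add_zero]
    rfl
  choose L hL1 hL2 using fun l => of_Gm_zero hF hσ hc (Z (Pi.single l 1)) (hG l)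
  -- `L l = Σ lam l m X m`
  have hlin : ∀ l, ∃ c : Fin 3 → ℂ, L l = ∑ m, C (c m) * X m := by
    intro l
    obtain ⟨g, hg1, hg2⟩ := hom_decomp (d := 0) (hL1 l)
    refine ⟨fun m => coeff 0 (g m), ?_⟩
    rw [hg2]
    refine Finset.sum_congr rfl fun m _ => ?_
    have : g m = C (coeff 0 (g m)) := by
      apply totalDegree_eq_zero_iff_eq_C.mp
      exact Nat.le_zero.mp (hg1 m).totalDegree_le
    rw [mul_comm, ← this]
  choose lam hlam using hlin
  have hsum : ∑ l, X l * L l = 0 := by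
    have e1 := RL_iff.mp hZ i0
    have e2 : (∑ l, X l * L l) * σ i0 = 0 := by
      rw [← e1, Finset.sum_mul]
      refine Finset.sum_congr rfl fun l _ => ?_
      rw [hL2 l]
      ring
    exact (mul_eq_zero.1 e2).resolve_right hi0
  have hev : ∀ x : Fin 3 → ℂ, ∑ l, x l * ∑ m, lam l m * x m = 0 := by
    intro x
    have := congrArg (eval x) hsum
    rw [map_sum, map_zero] at this
    rw [← this]
    refine Finset.sum_congr rfl fun l _ => ?_
    rw [map_mul, eval_X, hlam l, map_sum]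
    congr 1
    refine Finset.sum_congr rfl fun m _ => ?_
    rw [map_mul, eval_C, eval_X]
  -- skew symmetry
  have d0 := hev ![1, 0, 0]
  have d1 := hev ![0, 1, 0]
  have d2 := hev ![0, 0, 1]
  have d01 := hev ![1, 1, 0]
  have d02 := hev ![1, 0, 1]
  have d12 := hev ![0, 1, 1]
  simp [Fin.sum_univ_three] at d0 d1 d2 d01 d02 d12
  have hZp : ∀ p : Fin 3 → ℂ, (∀ m, ∑ l, p l * lam l m = 0) → Z p = 0 := by
    intro p hp
    have e1 : p = ∑ l, p l • (Pi.single l (1 : ℂ) : Fin 3 → ℂ) := by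
      funext k
      simp [Finset.sum_apply, Pi.single_apply]
    apply Subtype.ext
    funext j
    have e2 : (Z p : F1 3) j = ∑ l, p l • (Z (Pi.single l 1) : F1 3) j := by
      conv_lhs => rw [e1, map_sum]
      rw [AddSubmonoidClass.coe_finsetSum, Finset.sum_apply]
      refine Finset.sum_congr rfl fun l _ => ?_
      rw [map_smul]
      rfl
    rw [e2]
    have e3 : ∀ l, p l • (Z (Pi.single l 1) : F1 3) j = ∑ m, C (p l * lam l m) * X m * σ j := by
      intro l
      rw [hL2 l, hlam l, smul_eq_C_mul, Finset.sum_mul, Finset.mul_sum]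
      refine Finset.sum_congr rfl fun m _ => ?_
      rw [C_mul]
      ring
    rw [Finset.sum_congr rfl fun l _ => e3 l, Finset.sum_comm]
    have e4 : ∀ m, ∑ l, C (p l * lam l m) * X m * σ j = 0 := by
      intro m
      have : ∑ l, C (p l * lam l m) * X m * σ j = C (∑ l, p l * lam l m) * (X m * σ j) := by
        rw [map_sum, Finset.sum_mul]
        exact Finset.sum_congr rfl fun l _ => by ring
      rw [this, hp m, C_0, zero_mul]
    rw [Finset.sum_congr rfl fun m _ => e4 m, Finset.sum_const_zero]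
    rfl
  by_cases hl : lam 1 2 = 0 ∧ lam 2 0 = 0 ∧ lam 0 1 = 0
  · refine ⟨![1, 0, 0], fun h => ?_, hZp _ fun m => ?_⟩
    · have := congrFun h 0
      simp at this
    · have e10 : lam 1 0 = 0 := by linear_combination d01 - d0 - d1 - hl.2.2
      have e02 : lam 0 2 = 0 := by linear_combination d02 - d0 - d2 - hl.2.1
      rw [Fin.sum_univ_three]
      fin_cases m
      · simp [d0]
      · simp [hl.2.2]
      · simp [e02]
  · refine ⟨![lam 1 2, lam 2 0, lam 0 1], fun h => hl ?_, hZp _ fun m => ?_⟩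
    · exact ⟨by have := congrFun h 0; simpa using this, by have := congrFun h 1; simpa using this,
        by have := congrFun h 2; simpa using this⟩
    · rw [Fin.sum_univ_three]
      fin_cases m
      · show lam 1 2 * lam 0 0 + lam 2 0 * lam 1 0 + lam 0 1 * lam 2 0 = 0
        linear_combination lam 1 2 * d0 + lam 2 0 * (d01 - d0 - d1)
      · show lam 1 2 * lam 0 1 + lam 2 0 * lam 1 1 + lam 0 1 * lam 2 1 = 0
        linear_combination lam 2 0 * d1 + lam 0 1 * (d12 - d1 - d2)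
      · show lam 1 2 * lam 0 2 + lam 2 0 * lam 1 2 + lam 0 1 * lam 2 2 = 0
        linear_combination lam 0 1 * d2 + lam 1 2 * (d02 - d0 - d2)

end Pool.Agent.Helper53.TK
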