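import Pool.Agent.Helper71.FC.CaseY

/-! Injectivity of the restriction `E_k → E_k` of a general plane when the lower `E_d` of general planes vanish,
and the assembly of case Y without `IYin`. -/

set_option autoImplicit false

namespace Pool.Agent.Helper53.TK

open MvPolynomial
open scoped BigOperators
open Pool.Agent.Helper71.FL (w12 pf ct Dec Closed dd at0 emb res)
open Pool.Agent.Helper93 (lsub lmap OF pb IntS FolS)
open Pool.Agent.Helper71.FC

variable {n : ℕ}

theorem pb_zero' {m : ℕ} (φ : Fin n → Fin m → ℂ) : pb φ (0 : F1 n) = 0 := by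
  funext i
  unfold pb
  simp

/-- on a flag: if `E_(k-1) = 0` then `pb ψ` is injective on `E_k`, `ψ` the last columns of `g` -/
theorem inj_step {θ : F2 (n + 1)} {g g' : Fin (n + 1) → Fin (n + 1) → ℂ} (hg : Inv g g')
    (hF : Fol (rs2 (pb2 g θ))) (k : ℕ) (hk : ∀ d, d + 1 = k → EE θ d = ⊥) {ξ : F1 (n + 1)}
    (hξ : ξ ∈ EE θ k) (h0 : pb (fun i (j : Fin n) => g i j.succ) ξ = 0) : ξ = 0 := by
  have hnz : ∃ i j, rs2 (pb2 g θ) i j ≠ 0 := by
    by_contra hcon
    push Not at hcon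
    exact not_isUnit_zero (hF.prim 0 (fun i j => by rw [hcon]))
  have h1 : ∀ i, res (pb g ξ) i = 0 := by
    intro i
    rw [res_pb, h0]
    rfl
  have h2 : pb g ξ ∈ EE (pb2 g θ) k := EE_pb hξ g
  have h3 : pb g ξ = 0 := by
    rcases k with _ | k
    · exact EE_ker0 hnz h2 h1
    · obtain ⟨η, hη, hη2⟩ := EE_ker hnz h2 h1
      have h4 : EE (pb2 g θ) k = ⊥ := by
        haveI := finite_EE (pb2 g θ) k
        rw [← Submodule.finrank_eq_zero (R := ℂ), finrank_EE_pb2 θ k hg, hk k rfl, finrank_bot]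
      rw [h4, Submodule.mem_bot] at hη
      funext i
      rw [hη2, hη]
      simp
  have h5 : pb g' (pb g ξ) = ξ := by rw [pb_mm, hg.1, pb_idm]
  rw [← h5, h3, pb_zero']

/-- if the `E_d`, `d < k`, of general restrictions to `m` variables vanish, then `E_k` embeds into `E_k`
of a general restriction -/
theorem inj_gen (k : ℕ) {m : ℕ} (hm : 3 ≤ m) : ∀ (n : ℕ), m ≤ n → ∀ θ : F2 n, Fol θ →
    (∀ d < k, ge θ m d = 0) →
    (∀ d < k, ∀ n, m ≤ n → ∀ θ : F2 n, Fol θ → (∀ e ≤ d, ge θ m e = 0) → EE θ d = ⊥) →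
    ∀ p : (Fin n → Fin m → ℂ) → Prop, GenM p → ∃ φ, p φ ∧ ∀ ξ ∈ EE θ k, pb φ ξ = 0 → ξ = 0 := by
  intro n hn
  induction n, hn using Nat.le_induction with
  | base =>
    intro θ hF hge hE p hp
    obtain ⟨φ, hφ, ψ, hψ⟩ := (hp.and (GenM.inv m)).exists
    refine ⟨φ, hφ, fun ξ _ h0 => ?_⟩
    have h5 : pb ψ (pb φ ξ) = ξ := by rw [pb_mm, hψ.1, pb_idm]
    rw [← h5, h0, pb_zero']
  | succ n hn ih =>
    intro θ hF hge hE p hp
    have h1 := hp.comp (k := n) hn (Nat.le_succ n)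
    have h2 : ∀ d : Fin k, GenM (fun φ : Fin (n + 1) → Fin n → ℂ => ge (pb2 φ θ) m d = ge θ m d) :=
      fun d => ge_pb2 θ hn (Nat.le_succ n) d
    have h3 := GenM.all h2
    obtain ⟨g, g', hg, -, ⟨hq1, hq2⟩, -, -, hF'⟩ := exists_flag1 (hm.trans hn) hF
      (p := fun _ => True) (GenM.inv (n + 1) |>.mono fun _ _ => trivial) (h1.and h3)
    have hF'' : Fol (pb2 (fun i (j : Fin n) => g i j.succ) θ) := by
      rw [← rs2_pb2]
      exact hF'
    obtain ⟨κ, hκ1, hκ2⟩ := ih _ hF'' (fun d hd => by rw [hq2 ⟨d, hd⟩]; exact hge d hd) hE _ hq1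
    refine ⟨mm (fun i (j : Fin n) => g i j.succ) κ, hκ1, fun ξ hξ h0 => ?_⟩
    rw [← pb_mm] at h0
    have h6 := hκ2 _ (EE_pb hξ _) h0
    refine inj_step hg hF' k (fun d hd => ?_) hξ h6
    exact hE d (by omega) (n + 1) (by omega) θ hF (fun e he => hge e (by omega))

/-- if the `E_e`, `e ≤ d`, of general restrictions to `m` variables vanish then `E_d = 0` -/
theorem EE_bot_of_ge (d : ℕ) {m : ℕ} (hm : 3 ≤ m) : ∀ (n : ℕ), m ≤ n → ∀ θ : F2 n, Fol θ →
    (∀ e ≤ d, ge θ m e = 0) → EE θ d = ⊥ := by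
  induction d using Nat.strong_induction_on with
  | _ d ih =>
    intro n hn θ hF hge
    obtain ⟨φ, hφ1, hφ2⟩ := inj_gen d hm n hn θ hF (fun e he => hge e he.le)
      (fun e he => ih e he) _ (ge_gen θ m d)
    rw [hge d le_rfl] at hφ1
    haveI := finite_EE (pb2 φ θ) d
    rw [Submodule.finrank_eq_zero] at hφ1
    rw [Submodule.eq_bot_iff]
    intro ξ hξ
    have h1 := EE_pb hξ φ
    rw [hφ1, Submodule.mem_bot] at h1
    exact hφ2 ξ hξ h1

/-- general restrictions: a property `p` and injectivity of `E_k(V) → E_k(P)` -/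
theorem exists_inj (k : ℕ) {n m : ℕ} (hm : 3 ≤ m) (hn : m ≤ n) {θ : F2 n} (hF : Fol θ)
    (hge : ∀ d < k, ge θ m d = 0) {p : (Fin n → Fin m → ℂ) → Prop} (hp : GenM p) :
    ∃ φ, p φ ∧ ∀ ξ ∈ EE θ k, pb φ ξ = 0 → ξ = 0 :=
  inj_gen k hm n hn θ hF hge (fun d _ => EE_bot_of_ge d hm) p hp

theorem pb_add'' {n m : ℕ} (φ : Fin n → Fin m → ℂ) (ξ ξ' : F1 n) :
    pb φ (ξ + ξ') = pb φ ξ + pb φ ξ' := pb_add φ ξ ξ'

theorem pb_csmul {n m : ℕ} (φ : Fin n → Fin m → ℂ) (c : ℂ) (ξ : F1 n) :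
    pb φ (c • ξ) = c • pb φ ξ := by
  have h1 : (c • ξ : F1 n) = fun i => C c * ξ i := by
    funext i
    rw [Pi.smul_apply, smul_eq_C_mul]
  rw [h1, pb_smul]
  funext i
  rw [Pi.smul_apply, smul_eq_C_mul]
  congr 1
  unfold lsub
  rw [aeval_C]
  rfl

/-- `pb φ` as a linear map -/
noncomputable def pbL {n m : ℕ} (φ : Fin n → Fin m → ℂ) : F1 n →ₗ[ℂ] F1 m where
  toFun := pb φ
  map_add' := pb_add'' φ
  map_smul' := pb_csmul φ

theorem finrank_EE_le_ge (k : ℕ) {n m : ℕ} (hm : 3 ≤ m) (hn : m ≤ n) {θ : F2 n} (hF : Fol θ)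
    (hge : ∀ d < k, ge θ m d = 0) : Module.finrank ℂ (EE θ k) ≤ ge θ m k := by
  obtain ⟨φ, hφ1, hφ2⟩ := exists_inj k hm hn hF hge (ge_gen θ m k)
  rw [← hφ1]
  haveI := finite_EE (pb2 φ θ) k
  let L : EE θ k →ₗ[ℂ] EE (pb2 φ θ) k :=
    { toFun := fun ξ => ⟨pb φ ξ.1, EE_pb ξ.2 φ⟩
      map_add' := fun ξ ξ' => Subtype.ext (pb_add'' φ ξ.1 ξ'.1)
      map_smul' := fun c ξ => Subtype.ext (pb_csmul φ c ξ.1) }
  have hinj : Function.Injective L := by
    rw [← LinearMap.ker_eq_bot, LinearMap.ker_eq_bot']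
    intro ξ hξ
    exact Subtype.ext (hφ2 ξ.1 ξ.2 (congrArg Subtype.val hξ))
  exact LinearMap.finrank_le_finrank_of_injective hinj

/-- linearly independent functions on a set: points with non zero determinant -/
theorem exists_points {Ω : Type} {r : ℕ} (f : Fin r → Ω → ℂ) (hf : LinearIndependent ℂ f) :
    ∃ q : Fin r → Ω, (Matrix.of fun a b => f a (q b)).det ≠ 0 := by
  classical
  let e : Ω → (Fin r → ℂ) := fun ω a => f a ω
  have hspan : (⊤ : Submodule ℂ (Fin r → ℂ)) ≤ Submodule.span ℂ (Set.range e) := by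
    by_contra hcon
    have hne : Submodule.span ℂ (Set.range e) ≠ ⊤ := fun h => hcon (h ▸ le_rfl)
    obtain ⟨L, hL0, hL⟩ := Submodule.exists_le_ker_of_lt_top _ (lt_top_iff_ne_top.mpr hne)
    have h1 : ∀ ω, ∑ a, L (Pi.single a 1) * f a ω = 0 := by
      intro ω
      have h2 : L (e ω) = 0 := hL (Submodule.subset_span ⟨ω, rfl⟩)
      have h3 : e ω = ∑ a, f a ω • (Pi.single a (1 : ℂ) : Fin r → ℂ) := by
        funext b
        simp [e, Finset.sum_apply, Pi.single_apply]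
      rw [h3, map_sum] at h2
      rw [← h2]
      refine Finset.sum_congr rfl fun a _ => ?_
      rw [map_smul, smul_eq_mul, mul_comm]
    have h4 : ∑ a, L (Pi.single a 1) • f a = 0 := by
      funext ω
      rw [Finset.sum_apply]
      simpa [Pi.smul_apply, smul_eq_mul] using h1 ω
    have h5 := Fintype.linearIndependent_iff.mp hf _ h4
    apply hL0
    refine (Pi.basisFun ℂ (Fin r)).ext fun a => ?_
    rw [Pi.basisFun_apply, h5 a, LinearMap.zero_apply]
  let B := Module.Basis.ofSpan hspan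
  have hsub := Module.Basis.ofSpan_subset hspan
  haveI : Fintype (↑((linearIndepOn_empty ℂ id).extend (Set.empty_subset (Set.range e)))) :=
    FiniteDimensional.fintypeBasisIndex B
  have hcard := Module.finrank_eq_card_basis B
  rw [Module.finrank_fin_fun] at hcard
  let σ := (Fintype.equivFinOfCardEq hcard.symm).symm
  let B' := B.reindex σ.symm
  have hB' : ∀ b, ∃ ω, e ω = B' b := by
    intro b
    have : B' b ∈ Set.range B := by
      rw [Module.Basis.reindex_apply]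
      exact ⟨_, rfl⟩
    exact hsub this
  choose q hq using hB'
  refine ⟨q, ?_⟩
  have h6 : (Matrix.of fun a b => f a (q b)) = (Pi.basisFun ℂ (Fin r)).toMatrix B' := by
    ext a b
    rw [Matrix.of_apply, Module.Basis.toMatrix_apply, ← hq b, Pi.basisFun_repr]
  rw [h6]
  have h7 := (Pi.basisFun ℂ (Fin r)).isUnit_det B'
  rw [Module.Basis.det_apply] at h7
  exact h7.ne_zero

theorem eval_pb' {n m : ℕ} (φ : Fin n → Fin m → ℂ) (ξ : F1 n) (i : Fin m) (x : Fin m → ℂ) :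
    eval x (pb φ ξ i) = ∑ j, φ j i * eval (lmap φ x) (ξ j) := by
  unfold pb
  rw [map_sum]
  apply Finset.sum_congr rfl; intro j _
  rw [map_mul, eval_C, Pool.Agent.Helper93.eval_lsub]

/-- injectivity of `pb φ` on a finite dimensional space is an open condition -/
theorem genM_inj_of_exists {n m : ℕ} (W : Submodule ℂ (F1 n)) [Module.Finite ℂ W]
    {φ0 : Fin n → Fin m → ℂ} (h : ∀ ξ ∈ W, pb φ0 ξ = 0 → ξ = 0) :
    GenM (fun φ : Fin n → Fin m → ℂ => ∀ ξ ∈ W, pb φ ξ = 0 → ξ = 0) := by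
  classical
  let b := Module.finBasis ℂ W
  let f : (Fin n → Fin m → ℂ) → Fin (Module.finrank ℂ W) → (Fin m × (Fin m → ℂ)) → ℂ :=
    fun φ a ω => eval ω.2 (pb φ (b a).1 ω.1)
  have hcomb : ∀ (φ : Fin n → Fin m → ℂ) (c : Fin (Module.finrank ℂ W) → ℂ)
      (ω : Fin m × (Fin m → ℂ)),
      eval ω.2 (pb φ (∑ a, c a • b a : W).1 ω.1) = ∑ a, c a * f φ a ω := by
    intro φ c ω
    have h1 : (∑ a, c a • b a : W).1 = ∑ a, c a • (b a).1 := by
      rw [AddSubmonoidClass.coe_finsetSum]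
      rfl
    have h2 : pb φ (∑ a, c a • (b a).1) = ∑ a, c a • pb φ (b a).1 := by
      have h3 := map_sum (pbL φ) (fun a => c a • (b a).1) Finset.univ
      refine Eq.trans h3 (Finset.sum_congr rfl fun a _ => ?_)
      exact pb_csmul φ (c a) (b a).1
    rw [h1, h2, Finset.sum_apply, map_sum]
    refine Finset.sum_congr rfl fun a _ => ?_
    rw [Pi.smul_apply, smul_eq_C_mul, map_mul, eval_C]
  have hli : LinearIndependent ℂ (f φ0) := by
    rw [Fintype.linearIndependent_iff]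
    intro c hc
    have h1 : pb φ0 (∑ a, c a • b a : W).1 = 0 := by
      funext i
      apply MvPolynomial.funext
      intro y
      rw [hcomb φ0 c (i, y)]
      have h2 := congrFun hc (i, y)
      rw [Finset.sum_apply] at h2
      simpa [Pi.smul_apply, smul_eq_mul] using h2
    have h3 := h _ (∑ a, c a • b a : W).2 h1
    have h4 : (∑ a, c a • b a : W) = 0 := Subtype.ext h3
    exact Fintype.linearIndependent_iff.mp b.linearIndependent c h4
  obtain ⟨q, hq⟩ := exists_points (f φ0) hli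
  let P : Fin (Module.finrank ℂ W) → Fin (Module.finrank ℂ W) →
      MvPolynomial (Fin n × Fin m) ℂ := fun a t =>
    ∑ j, X (j, (q t).1) *
      aeval (fun k => ∑ l, X (k, l) * C ((q t).2 l)) ((b a).1 j)
  have hP : ∀ (φ : Fin n → Fin m → ℂ) a t, eval (fun p => φ p.1 p.2) (P a t) = f φ a (q t) := by
    intro φ a t
    show eval (fun p : Fin n × Fin m => φ p.1 p.2) (∑ j, X (j, (q t).1) *
      aeval (fun k => ∑ l, X (k, l) * C ((q t).2 l)) ((b a).1 j)) =
      eval (q t).2 (pb φ (b a).1 (q t).1)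
    rw [eval_pb', map_sum]
    refine Finset.sum_congr rfl fun j _ => ?_
    rw [map_mul, eval_X]
    congr 1
    rw [← coe_aeval_eq_eval, ← coe_aeval_eq_eval]
    show aeval _ (aeval _ _) = _
    rw [← AlgHom.comp_apply]
    have h5 : (aeval (fun p : Fin n × Fin m => φ p.1 p.2)).comp
        (aeval (fun k => ∑ l, X (k, l) * C ((q t).2 l)) : Pn n →ₐ[ℂ] MvPolynomial (Fin n × Fin m) ℂ)
        = (aeval (lmap φ (q t).2) : Pn n →ₐ[ℂ] ℂ) := by
      apply MvPolynomial.algHom_ext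
      intro k
      rw [AlgHom.comp_apply, aeval_X, aeval_X, map_sum]
      show _ = ∑ l, φ k l * (q t).2 l
      refine Finset.sum_congr rfl fun l _ => ?_
      rw [map_mul, aeval_X, aeval_C]
      rfl
    rw [h5]
    rfl
  let F : MvPolynomial (Fin n × Fin m) ℂ := (Matrix.of P).det
  have hF : ∀ φ : Fin n → Fin m → ℂ, eval (fun p => φ p.1 p.2) F =
      (Matrix.of fun a t => f φ a (q t)).det := by
    intro φ
    show eval (fun p : Fin n × Fin m => φ p.1 p.2) (Matrix.of P).det = _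
    rw [RingHom.map_det]
    congr 1
    ext a t
    exact hP φ a t
  refine ⟨F, ?_, fun φ hφ ξ hξ h0 => ?_⟩
  · intro h0
    apply hq
    rw [← hF φ0, h0, map_zero]
  · rw [hF] at hφ
    set c := b.repr ⟨ξ, hξ⟩ with hc
    have h6 : (∑ a, c a • b a : W) = ⟨ξ, hξ⟩ := b.sum_repr _
    have h7 : ∀ t, ∑ a, c a * f φ a (q t) = 0 := by
      intro t
      rw [← hcomb φ (fun a => c a) (q t), h6]
      show eval (q t).2 (pb φ ξ (q t).1) = 0
      rw [h0, Pi.zero_apply, map_zero]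
    have h8 : Matrix.vecMul (fun a => c a) (Matrix.of fun a t => f φ a (q t)) = 0 := by
      funext t
      exact h7 t
    have h9 : (fun a => c a) = (0 : Fin (Module.finrank ℂ W) → ℂ) :=
      Matrix.eq_zero_of_vecMul_eq_zero hφ h8
    have h10 : (⟨ξ, hξ⟩ : W) = 0 := by
      rw [← h6]
      refine Finset.sum_eq_zero fun a _ => ?_
      have : c a = 0 := congrFun h9 a
      rw [this, zero_smul]
    exact congrArg Subtype.val h10

/-- general restrictions to `m ≥ 3` variables: `E_k` embeds if the `E_d`, `d < k`, vanish -/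
theorem genM_inj (k : ℕ) {n m : ℕ} (hm : 3 ≤ m) (hn : m ≤ n) {θ : F2 n} (hF : Fol θ)
    (hge : ∀ d < k, ge θ m d = 0) :
    GenM (fun φ : Fin n → Fin m → ℂ => ∀ ξ ∈ EE θ k, pb φ ξ = 0 → ξ = 0) := by
  obtain ⟨φ, -, hφ⟩ := exists_inj k hm hn hF hge (ge_gen θ m k)
  haveI := finite_EE θ k
  exact genM_inj_of_exists (EE θ k) hφ

/-- the statement used for case Y -/
theorem IYinG (n m : ℕ) (hm : 3 ≤ m) (hn : m ≤ n) (θ : F2 n) (hF : Fol θ) (h0 : ge θ m 0 = 0)
    (h1 : ge θ m 1 = 0) (h2 : ge θ m 2 = 0) :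
    GenM (fun φ : Fin n → Fin m → ℂ => ∀ ξ ∈ EE θ 3, pb φ ξ = 0 → ξ = 0) :=
  genM_inj 3 hm hn hF (fun d hd => by
    interval_cases d
    · exact h0
    · exact h1
    · exact h2)

/-- not a cone: the constant vectors embed into `E_3` -/
theorem le_finrank_EE_three {n : ℕ} {θ : F2 n} (hF : Fol θ) (hc : ¬ Cone θ) :
    n ≤ Module.finrank ℂ (EE θ 3) := by
  have hadd : ∀ v w : Fin n → ℂ, av θ (v + w) = av θ v + av θ w := by
    intro v w
    funext i
    unfold av ct cv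
    rw [Pi.add_apply, ← Finset.sum_add_distrib]
    refine Finset.sum_congr rfl fun j _ => ?_
    rw [Pi.add_apply, C_add, add_mul]
  have hsm : ∀ (c : ℂ) (v : Fin n → ℂ), av θ (c • v) = c • av θ v := by
    intro c v
    funext i
    unfold av ct cv
    rw [Pi.smul_apply, smul_eq_C_mul, Finset.mul_sum]
    refine Finset.sum_congr rfl fun j _ => ?_
    rw [Pi.smul_apply, smul_eq_mul, C_mul, mul_assoc]
  let L : (Fin n → ℂ) →ₗ[ℂ] EE θ 3 :=
    { toFun := fun v => ⟨av θ v, av_mem_EE hF.dec hF.hom v⟩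
      map_add' := fun v w => Subtype.ext (hadd v w)
      map_smul' := fun c v => Subtype.ext (hsm c v) }
  have hinj : Function.Injective L := by
    rw [← LinearMap.ker_eq_bot, LinearMap.ker_eq_bot']
    intro v hv
    by_contra h0
    exact hc ⟨v, h0, fun j => congrFun (congrArg Subtype.val hv) j⟩
  haveI := finite_EE θ 3
  have := LinearMap.finrank_le_finrank_of_injective hinj
  rwa [Module.finrank_fin_fun] at this

/-- the assembly of case Y without `IYin` -/
theorem IY_of' (hgl : IYgl) (h3 : IY3) (h4 : IY4) (h5 : IY5) (h6 : IY6) (hN : IYN) : IY := by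
  have key : ∀ θ : F2 5, CY θ → OKF θ ∧ ge θ 3 3 ≤ 5 ∧ ge θ 3 0 = 0 ∧ ge θ 3 1 = 0 ∧
      ge θ 3 2 = 0 := by
    intro θ h
    obtain ⟨g0, g1⟩ := hgl 5 le_rfl θ h.fol h.nc h.e0 h.e1
    have a4 := h4 θ h g0 g1
    have a5 := h5 θ h g0 g1
    have a6 := h6 θ h g0 g1
    have a7 := h3 θ h g0 g1 (by omega)
    exact ⟨a7.1, a7.2, g0, g1, by omega⟩
  intro n hn θ hF hc h0 h1 h2
  have hY : CY θ := ⟨hF, hc, h0, h1, h2⟩
  rcases Nat.lt_or_ge n 6 with hn6 | hn6
  · obtain rfl : n = 5 := by omega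
    exact (key θ hY).1
  · exfalso
    have a1 := hN n hn6 θ hY
    have a2 : ∀ d : Fin 4, GenM (fun φ : Fin n → Fin 5 → ℂ => ge (pb2 φ θ) 3 d = ge θ 3 d) :=
      fun d => ge_pb2 θ (m := 3) (k := 5) (by norm_num) (by omega) d
    obtain ⟨φ, hφ1, hφ2⟩ := (a1.and (GenM.all a2)).exists
    obtain ⟨-, b3, b0, b1, b2⟩ := key _ hφ1
    have c0 : ge θ 3 0 = 0 := (hφ2 0).symm.trans b0
    have c1 : ge θ 3 1 = 0 := (hφ2 1).symm.trans b1
    have c2 : ge θ 3 2 = 0 := (hφ2 2).symm.trans b2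
    have c3 : ge θ 3 3 ≤ 5 := by
      have h := hφ2 3
      refine le_trans (le_of_eq ?_) b3
      exact h.symm
    have d1 := finrank_EE_le_ge 3 le_rfl (by omega) hF (fun d hd => by
      interval_cases d
      · exact c0
      · exact c1
      · exact c2)
    have d2 := le_finrank_EE_three hF hc
    omega

end Pool.Agent.Helper53.TK
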