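import Pool.Agent.Helper53.TK.Plk
import Pool.Agent.Helper53.TK.In
import Pool.Agent.Helper12.Z4.Defs
import Pool.Agent.Helper18.LB.Alg

/-! Plane facts, part 3: general coordinates.  `θ : F2 3`, `E_0 = E_1 = 0`, `E_2 = ℂ σ`. -/

set_option autoImplicit false

namespace Pool.Agent.Helper53.TK

open MvPolynomial
open scoped BigOperators
open Pool.Agent.Helper71.FL (w12 pf ct Dec Closed dd at0 emb res)
open Pool.Agent.Helper93 (lsub lmap OF pb)
open Pool.Agent.Helper71.FC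
open Pool.Agent.Helper12.Z4 (KX RL mem_KX mem_RL)

variable {θ : F2 3}

/-- the generator of `E_2` is primitive -/
theorem cop_sigma (h0 : EE θ 0 = ⊥) (h1 : EE θ 1 = ⊥) {σ : F1 3} (hσ : σ ∈ EE θ 2) (hσ0 : σ ≠ 0) :
    CopF σ := by
  intro p hp
  choose τ hτ using hp
  obtain ⟨i0, hi0⟩ : ∃ i, σ i ≠ 0 := by
    by_contra hcon
    push Not at hcon
    exact hσ0 (funext hcon)
  have hp0 : p ≠ 0 := by
    rintro rfl
    apply hi0
    rw [hτ, zero_mul]
  have hτ0 : τ i0 ≠ 0 := by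
    intro h
    apply hi0
    rw [hτ, h, mul_zero]
  obtain ⟨e, e', he, he', hee⟩ := Pool.Agent.Helper18.LB.hom_of_mul
    (by rw [← hτ i0]; exact hσ.1 i0) hp0 hτ0
  have hτh : ∀ i, (τ i).IsHomogeneous e' := by
    intro i
    apply Pool.Agent.Helper18.LB.hom_right _ he hp0
    rw [hee, ← hτ i]
    exact hσ.1 i
  have hτE : τ ∈ EE θ e' := by
    refine ⟨hτh, fun i j l => ?_⟩
    have h2 := hσ.2 i j l
    have h3 : σ = fun i => p * τ i := funext hτ
    rw [h3, w12_smul'] at h2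
    exact (mul_eq_zero.1 h2).resolve_left hp0
  have hlt : ¬ e' < 2 := by
    intro hlt
    have h4 : τ = 0 := by
      interval_cases e'
      · rw [h0, Submodule.mem_bot] at hτE
        exact hτE
      · rw [h1, Submodule.mem_bot] at hτE
        exact hτE
    exact hτ0 (by rw [h4]; rfl)
  have he0 : e = 0 := by omega
  subst he0
  have h5 : p = C (coeff 0 p) := by
    apply totalDegree_eq_zero_iff_eq_C.mp
    exact Nat.le_zero.mp he.totalDegree_le
  rw [h5]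
  refine (isUnit_iff_ne_zero.mpr ?_).map C
  intro h6
  rw [h6, C_0] at h5
  exact hp0 h5

theorem at0_lsub {n : ℕ} (g : Fin (n + 1) → Fin (n + 1) → ℂ) (f : Pn (n + 1)) :
    at0 n ℂ (lsub g f) = lsub (fun i (j : Fin n) => g i j.succ) f := by
  have h : mm g (fun (k : Fin (n + 1)) (l : Fin n) => if k = l.succ then (1 : ℂ) else 0) =
      fun i (j : Fin n) => g i j.succ := by
    funext i j
    show ∑ l, g i l * (if l = j.succ then (1 : ℂ) else 0) = g i j.succ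
    simp
  rw [at0_eq_lsub, lsub_mm, h]

/-- good coordinates exist -/
theorem exists_Gd (hF : Fol θ) (h0 : EE θ 0 = ⊥) (h1 : EE θ 1 = ⊥)
    (h2 : Module.finrank ℂ (EE θ 2) = 1) {σ : F1 3} (hσ : σ ∈ EE θ 2) (hσ0 : σ ≠ 0) :
    ∃ g g' : Fin 3 → Fin 3 → ℂ, Inv g g' ∧ Gd (pb2 g θ) (pb g σ) := by
  have hc := cop_gen (m := 2) (n := 3) le_rfl (by norm_num) hσ.1 (cop_sigma h0 h1 hσ hσ0)
  obtain ⟨g, ⟨g', hg⟩, hcg⟩ := ((GenM.inv 3).and
    (hc.cols (k := 3) Fin.succ (Fin.succ_injective 2))).exists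
  have hz : ∀ ξ : F1 3, pb g ξ = 0 → ξ = 0 := by
    intro ξ hξ
    have : pb g' (pb g ξ) = ξ := by rw [pb_mm, hg.1, pb_idm]
    rw [← this, hξ, pb_zero']
  have hfr : ∀ d, Module.finrank ℂ (EE (pb2 g θ) d) = Module.finrank ℂ (EE θ d) :=
    fun d => finrank_EE_pb2 θ d hg
  have hbot : ∀ d, EE θ d = ⊥ → EE (pb2 g θ) d = ⊥ := by
    intro d hd
    haveI := finite_EE (pb2 g θ) d
    rw [← Submodule.finrank_eq_zero (R := ℂ), hfr d, hd, finrank_bot]
  refine ⟨g, g', hg, ⟨Fol_pb2 hF hg, hbot 0 h0, hbot 1 h1, EE_pb hσ g, ?_, ?_, ?_⟩⟩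
  · intro ξ hξ
    have h3 : Module.finrank ℂ (EE (pb2 g θ) 2) = 1 := by rw [hfr, h2]
    have h4 : (⟨pb g σ, EE_pb hσ g⟩ : EE (pb2 g θ) 2) ≠ 0 := by
      intro h
      exact hσ0 (hz σ (congrArg Subtype.val h))
    obtain ⟨c, hc⟩ := (finrank_eq_one_iff_of_nonzero' _ h4).mp h3 ⟨ξ, hξ⟩
    exact ⟨c, (congrArg Subtype.val hc).symm⟩
  · intro p hp
    apply hcg p
    intro k
    have e1 : ∀ i, at0 2 ℂ (pb g σ i) =
        ∑ j, C (g j i) * lsub (fun i (j : Fin 2) => g i j.succ) (σ j) := by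
      intro i
      unfold pb
      rw [map_sum]
      refine Finset.sum_congr rfl fun j _ => ?_
      rw [map_mul, at0_C, at0_lsub]
    have e2 : lsub (fun i (j : Fin 2) => g i j.succ) (σ k) =
        ∑ i, C (g' i k) * at0 2 ℂ (pb g σ i) := by
      have e3 : ∀ j, ∑ i, g j i * g' i k = if j = k then 1 else 0 := by
        intro j
        exact congrFun (congrFun hg.1 j) k
      symm
      calc ∑ i, C (g' i k) * at0 2 ℂ (pb g σ i)
          = ∑ i, ∑ j, C (g j i * g' i k) *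
              lsub (fun i (j : Fin 2) => g i j.succ) (σ j) := by
            refine Finset.sum_congr rfl fun i _ => ?_
            rw [e1, Finset.mul_sum]
            refine Finset.sum_congr rfl fun j _ => ?_
            rw [C_mul]
            ring
        _ = ∑ j, C (∑ i, g j i * g' i k) * lsub (fun i (j : Fin 2) => g i j.succ) (σ j) := by
            rw [Finset.sum_comm]
            refine Finset.sum_congr rfl fun j _ => ?_
            rw [map_sum, Finset.sum_mul]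
        _ = _ := by
            rw [Finset.sum_eq_single k]
            · rw [e3, if_pos rfl, C_1, one_mul]
            · intro j _ hj
              rw [e3, if_neg hj, C_0, zero_mul]
            · intro h; exact absurd (Finset.mem_univ _) h
    show p ∣ lsub (fun i (j : Fin 2) => g i j.succ) (σ k)
    rw [e2]
    exact Finset.dvd_sum fun i _ => Dvd.dvd.mul_left (hp i) _
  · by_contra hcon
    push Not at hcon
    have h5 := (Fol_pb2 hF hg).prim (X 0) (fun i j => by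
      obtain ⟨q, hq⟩ := (at0_eq_zero_iff _).mp (hcon i j)
      exact ⟨q, hq⟩)
    have h6 := h5.map (eval (0 : Fin 3 → ℂ))
    simp at h6

theorem exists_sigma (h2 : Module.finrank ℂ (EE θ 2) = 1) : ∃ σ ∈ EE θ 2, σ ≠ 0 := by
  obtain ⟨v, hv, -⟩ := finrank_eq_one_iff'.mp h2
  exact ⟨v.1, v.2, fun h => hv (Subtype.ext h)⟩

theorem pl_e3 (hF : Fol θ) (h0 : EE θ 0 = ⊥) (h1 : EE θ 1 = ⊥)
    (h2 : Module.finrank ℂ (EE θ 2) = 1) : Module.finrank ℂ (EE θ 3) ≤ 6 := by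
  obtain ⟨σ, hσ, hσ0⟩ := exists_sigma h2
  obtain ⟨g, g', hg, h⟩ := exists_Gd hF h0 h1 h2 hσ hσ0
  rw [← finrank_EE_pb2 θ 3 hg]
  exact h.e3_le

theorem pl_step (hF : Fol θ) (h0 : EE θ 0 = ⊥) (h1 : EE θ 1 = ⊥)
    (h2 : Module.finrank ℂ (EE θ 2) = 1) (k : ℕ) : Module.finrank ℂ (EE θ (k + 3)) ≤
      Module.finrank ℂ (EE θ (k + 2)) + 2 * k + 5 := by
  obtain ⟨σ, hσ, hσ0⟩ := exists_sigma h2
  obtain ⟨g, g', hg, h⟩ := exists_Gd hF h0 h1 h2 hσ hσ0
  rw [← finrank_EE_pb2 θ (k + 3) hg, ← finrank_EE_pb2 θ (k + 2) hg]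
  exact h.e_le k

theorem pl_ek (hF : Fol θ) (h0 : EE θ 0 = ⊥) (h1 : EE θ 1 = ⊥)
    (h2 : Module.finrank ℂ (EE θ 2) = 1) (h3 : Module.finrank ℂ (EE θ 3) = 6) (k : ℕ)
    (hk : 3 ≤ k) : Module.finrank ℂ (EE θ k) + 3 = k ^ 2 := by
  obtain ⟨σ, hσ, hσ0⟩ := exists_sigma h2
  obtain ⟨g, g', hg, h⟩ := exists_Gd hF h0 h1 h2 hσ hσ0
  rw [← finrank_EE_pb2 θ k hg]
  exact h.ek (by rw [finrank_EE_pb2 θ 3 hg, h3]) k hk

theorem pl_gen (hF : Fol θ) (h0 : EE θ 0 = ⊥) (h1 : EE θ 1 = ⊥)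
    (h2 : Module.finrank ℂ (EE θ 2) = 1) (h3 : Module.finrank ℂ (EE θ 3) = 6) (k : ℕ)
    (hk : 3 ≤ k) {ξ : F1 3} (hξ : ξ ∈ EE θ (k + 1)) : ∃ ζ : Fin 3 → F1 3,
      (∀ l, ζ l ∈ EE θ k) ∧ ∀ i, ξ i = ∑ l, X l * ζ l i := by
  obtain ⟨σ, hσ, hσ0⟩ := exists_sigma h2
  obtain ⟨g, g', hg, h⟩ := exists_Gd hF h0 h1 h2 hσ hσ0
  obtain ⟨ζ, hζ1, hζ2⟩ := h.gen (by rw [finrank_EE_pb2 θ 3 hg, h3]) k hk (EE_pb hξ g)
  have hθ : pb2 g' (pb2 g θ) = θ := by rw [pb2_mm, hg.1, pb2_idm]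
  have hE : ∀ l, pb g' (ζ l) ∈ EE θ k := by
    intro l
    have := EE_pb (hζ1 l) g'
    rwa [hθ] at this
  refine ⟨fun m => ∑ l, g' l m • pb g' (ζ l), fun m => ?_, fun i => ?_⟩
  · exact Submodule.sum_mem _ fun l _ => Submodule.smul_mem _ _ (hE l)
  · have e1 : ξ = pb g' (pb g ξ) := by rw [pb_mm, hg.1, pb_idm]
    have e2 : pb g ξ = ∑ l, (fun i => X l * ζ l i : F1 3) := by
      funext i
      rw [Finset.sum_apply]
      exact hζ2 i
    have e3 : pb g' (pb g ξ) = ∑ l, pb g' (fun i => X l * ζ l i) := by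
      rw [e2]
      exact map_sum (pbL g') (fun l => (fun i => X l * ζ l i : F1 3)) Finset.univ
    have e4 : ∀ l, pb g' (fun i => X l * ζ l i) i = (∑ m, C (g' l m) * X m) * pb g' (ζ l) i := by
      intro l
      have := congrFun (pb_smul g' (X l) (ζ l)) i
      rw [this]
      congr 1
      unfold lsub
      rw [aeval_X]
    rw [e1, e3, Finset.sum_apply]
    rw [Finset.sum_congr rfl fun l _ => e4 l]
    have e5 : ∀ m, (X m : Pn 3) * ((∑ l, g' l m • pb g' (ζ l) : F1 3) i) =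
        ∑ l, C (g' l m) * X m * pb g' (ζ l) i := by
      intro m
      rw [Finset.sum_apply, Finset.mul_sum]
      refine Finset.sum_congr rfl fun l _ => ?_
      rw [Pi.smul_apply, smul_eq_C_mul]
      ring
    rw [Finset.sum_congr rfl fun m _ => e5 m, Finset.sum_comm]
    refine Finset.sum_congr rfl fun l _ => ?_
    rw [Finset.sum_mul]

/-! ### linear relations -/

/-- a relation as a polynomial identity -/
theorem RL_iff {n : ℕ} {θ : F2 n} {Z : (Fin n → ℂ) →ₗ[ℂ] EE θ 3} : Z ∈ RL θ ↔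
    ∀ j, ∑ l, (X l : Pn n) * (Z (Pi.single l 1) : F1 n) j = 0 := by
  have key : ∀ (x : Fin n → ℂ) (j : Fin n), eval x (∑ l, (X l : Pn n) *
      (Z (Pi.single l 1) : F1 n) j) = eval x ((Z x : F1 n) j) := by
    intro x j
    have e1 : x = ∑ l, x l • (Pi.single l (1 : ℂ) : Fin n → ℂ) := by
      funext k
      simp [Finset.sum_apply, Pi.single_apply]
    have e2 : (Z x : F1 n) j = ∑ l, x l • (Z (Pi.single l 1) : F1 n) j := by
      conv_lhs => rw [e1, map_sum]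
      rw [AddSubmonoidClass.coe_finsetSum, Finset.sum_apply]
      refine Finset.sum_congr rfl fun l _ => ?_
      rw [map_smul]
      rfl
    rw [e2, map_sum, map_sum]
    refine Finset.sum_congr rfl fun l _ => ?_
    rw [map_mul, eval_X, smul_eq_C_mul, map_mul, eval_C]
  constructor
  · intro h j
    apply MvPolynomial.funext
    intro x
    rw [key, map_zero]
    exact h x j
  · intro h x j
    rw [← key, h, map_zero]

end Pool.Agent.Helper53.TK
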