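import Pool.Agent.Helper53.TK.Pl
import Pool.Agent.Helper28.Z4.Div

/-! Plane facts, part 4: linear relations between the cubic forms. -/

set_option autoImplicit false

namespace Pool.Agent.Helper53.TK

open MvPolynomial
open scoped BigOperators
open Pool.Agent.Helper71.FL (w12 pf ct Dec Closed dd at0 emb res)
open Pool.Agent.Helper93 (lsub lmap OF pb)
open Pool.Agent.Helper71.FC
open Pool.Agent.Helper18.LB (finrank_homog finite_homog)
open Pool.Agent.Helper12.Z4 (KX RL mem_KX mem_RL)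

variable {θ : F2 3}

/-! ### dimension of `RL` -/

/-- `ζ ↦ Σ x_l ζ_l` -/
noncomputable def mu (θ : F2 3) (k : ℕ) : (Fin 3 → EE θ k) →ₗ[ℂ] EE θ (k + 1) where
  toFun ζ := ⟨fun i => ∑ l, X l * (ζ l : F1 3) i, sum_mem_EE fun l => (ζ l).2⟩
  map_add' := by
    intro a b
    apply Subtype.ext
    funext i
    show ∑ l, X l * ((a l : F1 3) i + (b l : F1 3) i) =
      ∑ l, X l * (a l : F1 3) i + ∑ l, X l * (b l : F1 3) i
    rw [← Finset.sum_add_distrib]
    exact Finset.sum_congr rfl fun l _ => by ring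
  map_smul' := by
    intro c a
    apply Subtype.ext
    funext i
    show ∑ l, X l * (c • (a l : F1 3) i) = c • ∑ l, X l * (a l : F1 3) i
    rw [Finset.smul_sum]
    exact Finset.sum_congr rfl fun l _ => mul_smul_comm _ _ _

theorem RL_eq_map : RL θ = (LinearMap.ker (mu θ 3)).map
    ((Pi.basisFun ℂ (Fin 3)).constr ℂ : (Fin 3 → EE θ 3) ≃ₗ[ℂ] _).toLinearMap := by
  have hb : ∀ (ζ : Fin 3 → EE θ 3) (l : Fin 3),
      ((Pi.basisFun ℂ (Fin 3)).constr ℂ ζ : (Fin 3 → ℂ) →ₗ[ℂ] EE θ 3) (Pi.single l 1) = ζ l := by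
    intro ζ l
    have := (Pi.basisFun ℂ (Fin 3)).constr_basis ℂ ζ l
    rwa [Pi.basisFun_apply] at this
  apply le_antisymm
  · intro Z hZ
    refine Submodule.mem_map.mpr ⟨fun l => Z (Pi.single l 1), ?_, ?_⟩
    · rw [LinearMap.mem_ker]
      apply Subtype.ext
      funext j
      exact RL_iff.mp hZ j
    · refine (Pi.basisFun ℂ (Fin 3)).ext fun l => ?_
      rw [Pi.basisFun_apply]
      exact hb _ l
  · intro Z hZ
    obtain ⟨ζ, hζ, rfl⟩ := Submodule.mem_map.mp hZ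
    rw [RL_iff]
    intro j
    have h1 := congrFun (congrArg Subtype.val (LinearMap.mem_ker.mp hζ)) j
    refine Eq.trans (Finset.sum_congr rfl fun l _ => ?_) h1
    have h2 := hb ζ l
    exact congrArg (fun f : EE θ 3 => (X l : Pn 3) * (f : F1 3) j) h2

theorem pl_RL (hF : Fol θ) (h0 : EE θ 0 = ⊥) (h1 : EE θ 1 = ⊥)
    (h2 : Module.finrank ℂ (EE θ 2) = 1) (h3 : Module.finrank ℂ (EE θ 3) = 6) :
    Module.finrank ℂ (RL θ) = 5 := by
  haveI := finite_EE θ 3
  haveI := finite_EE θ 4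
  have h4 : Module.finrank ℂ (EE θ (3 + 1)) = 13 := by
    have := pl_ek hF h0 h1 h2 h3 4 (by norm_num)
    have h5 : Module.finrank ℂ (EE θ (3 + 1)) = Module.finrank ℂ (EE θ 4) := rfl
    omega
  have hs : LinearMap.range (mu θ 3) = ⊤ := by
    rw [LinearMap.range_eq_top]
    intro ξ
    obtain ⟨ζ, hζ1, hζ2⟩ := pl_gen hF h0 h1 h2 h3 3 le_rfl ξ.2
    exact ⟨fun l => ⟨ζ l, hζ1 l⟩, Subtype.ext (funext fun i => (hζ2 i).symm)⟩
  have h5 := LinearMap.finrank_range_add_finrank_ker (mu θ 3)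
  rw [hs, finrank_top, h4, Module.finrank_pi_fintype] at h5
  simp only [h3, Finset.sum_const, Finset.card_univ, Fintype.card_fin, smul_eq_mul] at h5
  rw [RL_eq_map]
  have h6 := LinearEquiv.finrank_map_eq
    ((Pi.basisFun ℂ (Fin 3)).constr ℂ : (Fin 3 → EE θ 3) ≃ₗ[ℂ] ((Fin 3 → ℂ) →ₗ[ℂ] EE θ 3))
    (LinearMap.ker (mu θ 3))
  rw [h6]
  omega

/-! ### relations vanishing at a point -/

theorem sum3 {M : Type} [AddCommMonoid M] (f : Fin 3 → M) (a : Fin 3) :
    ∑ l, f l = f a + f (a + 1) + f (a + 2) := by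
  rw [Fin.sum_univ_three]
  fin_cases a
  · rfl
  · show f 0 + f 1 + f 2 = f 1 + f 2 + f 0
    rw [add_comm (f 1 + f 2) (f 0), add_assoc]
  · show f 0 + f 1 + f 2 = f 2 + f 0 + f 1
    rw [add_assoc (f 2), add_comm (f 2)]

theorem ne_one (a : Fin 3) : a ≠ a + 1 := by fin_cases a <;> decide
theorem ne_two (a : Fin 3) : a ≠ a + 2 := by fin_cases a <;> decide
theorem ne_one_two (a : Fin 3) : a + 1 ≠ a + 2 := by fin_cases a <;> decide

/-- linear form vanishing at `p` -/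
noncomputable def yy (p : Fin 3 → ℂ) (a b : Fin 3) : Pn 3 := X b - C (p b / p a) * X a

theorem yy_hom (p : Fin 3 → ℂ) (a b : Fin 3) : (yy p a b).IsHomogeneous 1 := by
  refine (isHomogeneous_X ℂ b).sub ?_
  have := (isHomogeneous_C (Fin 3) (p b / p a)).mul (isHomogeneous_X ℂ a)
  rwa [zero_add] at this

theorem yy_eval (p : Fin 3 → ℂ) {a b : Fin 3} (_hab : a ≠ b) (c : Fin 3) :
    eval (Pi.single c 1) (yy p a b) = (if b = c then 1 else 0) - p b / p a * (if a = c then 1 else 0) := by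
  unfold yy
  rw [map_sub, map_mul, eval_X, eval_X, eval_C, Pi.single_apply, Pi.single_apply]

theorem RL_pt_aux {σ : F1 3} (hσ : ∀ ξ ∈ EE θ 2, ∃ c : ℂ, ξ = c • σ)
    {Z : (Fin 3 → ℂ) →ₗ[ℂ] EE θ 3} (hZ : Z ∈ RL θ) {p : Fin 3 → ℂ} {a : Fin 3} (ha : p a ≠ 0)
    (hp : Z p = 0) : ∃ c : ℂ,
      (∀ j, (Z (Pi.single (a + 2) 1) : F1 3) j = yy p a (a + 1) * (C c * σ j)) ∧
      ∀ j, (Z (Pi.single (a + 1) 1) : F1 3) j = -(yy p a (a + 2) * (C c * σ j)) := by
  have hpe : p = p a • Pi.single a (1 : ℂ) + p (a + 1) • Pi.single (a + 1) (1 : ℂ) +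
      p (a + 2) • Pi.single (a + 2) (1 : ℂ) := by
    have h1 : p = ∑ l, p l • (Pi.single l (1 : ℂ) : Fin 3 → ℂ) := by
      funext k
      simp [Finset.sum_apply, Pi.single_apply]
    conv_lhs => rw [h1]
    exact sum3 (fun l => p l • (Pi.single l (1 : ℂ) : Fin 3 → ℂ)) a
  have h1 : p a • Z (Pi.single a 1) + p (a + 1) • Z (Pi.single (a + 1) 1) +
      p (a + 2) • Z (Pi.single (a + 2) 1) = 0 := by
    have := hp
    rw [hpe, map_add, map_add, map_smul, map_smul, map_smul] at this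
    exact this
  have h2 : ∀ j, C (p a) * (Z (Pi.single a 1) : F1 3) j +
      C (p (a + 1)) * (Z (Pi.single (a + 1) 1) : F1 3) j +
      C (p (a + 2)) * (Z (Pi.single (a + 2) 1) : F1 3) j = 0 := by
    intro j
    have := congrFun (congrArg Subtype.val h1) j
    have e : p a • (Z (Pi.single a 1) : F1 3) j + p (a + 1) • (Z (Pi.single (a + 1) 1) : F1 3) j +
      p (a + 2) • (Z (Pi.single (a + 2) 1) : F1 3) j = 0 := this
    simpa only [smul_eq_C_mul] using e
  have h3 : ∀ j, X a * (Z (Pi.single a 1) : F1 3) j + X (a + 1) * (Z (Pi.single (a + 1) 1) : F1 3) j +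
      X (a + 2) * (Z (Pi.single (a + 2) 1) : F1 3) j = 0 := by
    intro j
    have := RL_iff.mp hZ j
    rwa [sum3 _ a] at this
  have h4 : ∀ j, yy p a (a + 1) * (Z (Pi.single (a + 1) 1) : F1 3) j +
      yy p a (a + 2) * (Z (Pi.single (a + 2) 1) : F1 3) j = 0 := by
    intro j
    have e1 : (C (p a) : Pn 3) * C (p (a + 1) / p a) = C (p (a + 1)) := by
      rw [← C_mul, mul_div_cancel₀ _ ha]
    have e2 : (C (p a) : Pn 3) * C (p (a + 2) / p a) = C (p (a + 2)) := by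
      rw [← C_mul, mul_div_cancel₀ _ ha]
    have e3 : (C (p a) : Pn 3) ≠ 0 := by
      intro h
      exact ha (C_injective (Fin 3) ℂ (by rw [h, C_0]))
    apply mul_left_cancel₀ e3
    rw [mul_zero]
    unfold yy
    have := h2 j
    have h3j := h3 j
    linear_combination (C (p a)) * h3j - (X a) * this -
      (X a * (Z (Pi.single (a + 1) 1) : F1 3) j) * e1 - (X a * (Z (Pi.single (a + 2) 1) : F1 3) j) * e2
  have hy0 : yy p a (a + 1) ≠ 0 := by
    intro h
    have := yy_eval p (ne_one a) (a + 1)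
    rw [h, map_zero, if_pos rfl, if_neg (ne_one a), mul_zero, sub_zero] at this
    exact zero_ne_one this
  have hpr := prime_of_hom_one (yy_hom p a (a + 1)) hy0
  have hnd : ¬ yy p a (a + 1) ∣ yy p a (a + 2) := by
    rintro ⟨t, ht⟩
    have e1 := yy_eval p (ne_two a) (a + 2)
    have e2 := yy_eval p (ne_one a) (a + 2)
    rw [if_pos rfl, if_neg (ne_two a), mul_zero, sub_zero, ht, map_mul, e2,
      if_neg (ne_one_two a), if_neg (ne_two a), mul_zero, sub_zero, zero_mul] at e1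
    exact zero_ne_one e1
  have h5 : ∀ j, yy p a (a + 1) ∣ (Z (Pi.single (a + 2) 1) : F1 3) j := by
    intro j
    have : yy p a (a + 1) ∣ yy p a (a + 2) * (Z (Pi.single (a + 2) 1) : F1 3) j :=
      ⟨-(Z (Pi.single (a + 1) 1) : F1 3) j, by linear_combination h4 j⟩
    exact (hpr.dvd_or_dvd this).resolve_left hnd
  choose τ hτ using h5
  have hτE : τ ∈ EE θ 2 := by
    refine ⟨fun j => ?_, fun i j l => ?_⟩
    · apply hom_quot' (yy_hom p a (a + 1)) hy0
      rw [mul_comm, ← hτ j]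
      exact (Z (Pi.single (a + 2) 1)).2.1 j
    · have e1 := (Z (Pi.single (a + 2) 1)).2.2 i j l
      have e2 : (Z (Pi.single (a + 2) 1) : F1 3) = fun j => yy p a (a + 1) * τ j := funext hτ
      rw [e2, w12_smul'] at e1
      exact (mul_eq_zero.1 e1).resolve_left hy0
  obtain ⟨c, hc⟩ := hσ τ hτE
  refine ⟨c, fun j => ?_, fun j => ?_⟩
  · rw [hτ j, hc, Pi.smul_apply, smul_eq_C_mul]
  · apply mul_left_cancel₀ hy0
    have e1 := h4 j
    have e2 : (Z (Pi.single (a + 2) 1) : F1 3) j = yy p a (a + 1) * (C c * σ j) := by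
      rw [hτ j, hc, Pi.smul_apply, smul_eq_C_mul]
    rw [e2] at e1
    linear_combination e1

theorem pl_RL_pt (h2 : Module.finrank ℂ (EE θ 2) = 1) {Z Z' : (Fin 3 → ℂ) →ₗ[ℂ] EE θ 3}
    (hZ : Z ∈ RL θ) (hZ' : Z' ∈ RL θ) {p : Fin 3 → ℂ} (hp : p ≠ 0) (h : Z p = 0) (h' : Z' p = 0) :
    ∃ c c' : ℂ, (c ≠ 0 ∨ c' ≠ 0) ∧ c • Z + c' • Z' = 0 := by
  obtain ⟨a, ha⟩ : ∃ a, p a ≠ 0 := by
    by_contra hcon
    push Not at hcon
    exact hp (funext hcon)
  obtain ⟨s, hs0, hs⟩ := finrank_eq_one_iff'.mp h2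
  have hσ : ∀ ξ ∈ EE θ 2, ∃ c : ℂ, ξ = c • s.1 := by
    intro ξ hξ
    obtain ⟨c, hc⟩ := hs ⟨ξ, hξ⟩
    exact ⟨c, (congrArg Subtype.val hc).symm⟩
  obtain ⟨c, hc1, hc2⟩ := RL_pt_aux hσ hZ ha h
  obtain ⟨c', hc1', hc2'⟩ := RL_pt_aux hσ hZ' ha h'
  have hzero : ∀ W : (Fin 3 → ℂ) →ₗ[ℂ] EE θ 3, W p = 0 → W (Pi.single (a + 1) 1) = 0 →
      W (Pi.single (a + 2) 1) = 0 → W = 0 := by
    intro W hW h1 h2
    have hpe : p = ∑ l, p l • (Pi.single l (1 : ℂ) : Fin 3 → ℂ) := by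
      funext k
      simp [Finset.sum_apply, Pi.single_apply]
    rw [hpe, map_sum, sum3 _ a, map_smul, map_smul, map_smul, h1, h2, smul_zero, smul_zero,
      add_zero, add_zero] at hW
    have h3 : W (Pi.single a 1) = 0 := (smul_eq_zero.mp hW).resolve_left ha
    refine (Pi.basisFun ℂ (Fin 3)).ext fun l => ?_
    rw [Pi.basisFun_apply, LinearMap.zero_apply]
    have hl : l = a ∨ l = a + 1 ∨ l = a + 2 := by
      fin_cases a <;> fin_cases l <;> simp
    rcases hl with rfl | rfl | rfl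
    · exact h3
    · exact h1
    · exact h2
  by_cases hcc : c = 0 ∧ c' = 0
  · refine ⟨1, 0, Or.inl one_ne_zero, ?_⟩
    rw [one_smul, zero_smul, add_zero]
    apply hzero Z h
    · apply Subtype.ext
      funext j
      rw [hc2 j, hcc.1, C_0, zero_mul, mul_zero, neg_zero]
      rfl
    · apply Subtype.ext
      funext j
      rw [hc1 j, hcc.1, C_0, zero_mul, mul_zero]
      rfl
  · refine ⟨c', -c, ?_, ?_⟩
    · by_contra hcon
      push Not at hcon
      exact hcc ⟨neg_eq_zero.mp hcon.2, hcon.1⟩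
    · apply hzero
      · rw [LinearMap.add_apply, LinearMap.smul_apply, LinearMap.smul_apply, h, h', smul_zero,
          smul_zero, add_zero]
      · apply Subtype.ext
        funext j
        show c' • (Z (Pi.single (a + 1) 1) : F1 3) j + (-c) • (Z' (Pi.single (a + 1) 1) : F1 3) j = 0
        rw [hc2 j, hc2' j, smul_eq_C_mul, smul_eq_C_mul, C_neg]
        ring
      · apply Subtype.ext
        funext j
        show c' • (Z (Pi.single (a + 2) 1) : F1 3) j + (-c) • (Z' (Pi.single (a + 2) 1) : F1 3) j = 0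
        rw [hc1 j, hc1' j, smul_eq_C_mul, smul_eq_C_mul, C_neg]
        ring

end Pool.Agent.Helper53.TK
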