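import Pool.Agent.Helper57.SC.Ann
import Pool.Agent.Helper12.Z4.Rank

/-! Linear algebra for `ZH/Kos.lean` (`kos3`). -/

set_option autoImplicit false

namespace Pool.Agent.Helper53.TK

open MvPolynomial
open scoped BigOperators
open Pool.Agent.Helper71.FC
open Pool.Agent.Helper12.Z4 (KX RL mem_RL mem_KX)

/-- a basis adapted to two different hyperplanes of `ℂ^4`, with the first two vectors of the dual basis -/
theorem kos_basis {A A' : Submodule ℂ (Fin 4 → ℂ)} (hA : Module.finrank ℂ A = 3)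
    (hA' : Module.finrank ℂ A' = 3) (hne : A ≠ A') :
    ∃ x : Fin 4 → Fin 4 → ℂ, LinearIndependent ℂ x ∧ x 0 ∈ A' ∧ x 0 ∉ A ∧ x 1 ∈ A ∧ x 1 ∉ A' ∧
      x 2 ∈ A ∧ x 2 ∈ A' ∧ x 3 ∈ A ∧ x 3 ∈ A' ∧
      ∃ p q : Fin 4 → ℂ, (∀ i, ∑ l, x i l * p l = if i = 0 then 1 else 0) ∧
        (∀ i, ∑ l, x i l * q l = if i = 1 then 1 else 0) := by
  classical
  have hnle : ¬ A ≤ A' := fun h => hne (Submodule.eq_of_le_of_finrank_eq h (by rw [hA, hA']))
  have hnle' : ¬ A' ≤ A := fun h => hne (Submodule.eq_of_le_of_finrank_eq h (by rw [hA, hA'])).symm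
  obtain ⟨b, hb, hbA'⟩ := SetLike.not_le_iff_exists.mp hnle
  obtain ⟨a, ha, haA⟩ := SetLike.not_le_iff_exists.mp hnle'
  have hinf : 2 ≤ Module.finrank ℂ (A ⊓ A' : Submodule ℂ (Fin 4 → ℂ)) := by
    have h1 := Submodule.finrank_sup_add_finrank_inf_eq A A'
    have h2 : Module.finrank ℂ (A ⊔ A' : Submodule ℂ (Fin 4 → ℂ)) ≤ 4 := by
      have := Submodule.finrank_le (A ⊔ A')
      simpa using this
    omega
  obtain ⟨f, hf⟩ := exists_linearIndependent_of_le_finrank hinf
  set u := (f 0).1 with hu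
  set v := (f 1).1 with hv
  have huA : u ∈ A := (f 0).2.1
  have huA' : u ∈ A' := (f 0).2.2
  have hvA : v ∈ A := (f 1).2.1
  have hvA' : v ∈ A' := (f 1).2.2
  have hli : LinearIndependent ℂ ![a, b, u, v] := by
    rw [Fintype.linearIndependent_iff]
    intro g hg
    rw [Fin.sum_univ_four] at hg
    simp only [Matrix.cons_val_zero, Matrix.cons_val_one, Matrix.cons_val] at hg
    have h0 : g 0 = 0 := by
      by_contra h
      apply haA
      have h1 : a = (g 0)⁻¹ • (- (g 1 • b) - g 2 • u - g 3 • v) := by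
        have h2 : - (g 1 • b) - g 2 • u - g 3 • v = g 0 • a := by
          rw [← sub_eq_zero, ← neg_eq_zero, ← hg]; abel
        rw [h2, smul_smul, inv_mul_cancel₀ h, one_smul]
      rw [h1]
      exact A.smul_mem _ (A.sub_mem (A.sub_mem (A.neg_mem (A.smul_mem _ hb)) (A.smul_mem _ huA))
        (A.smul_mem _ hvA))
    have h1 : g 1 = 0 := by
      by_contra h
      apply hbA'
      have h1 : b = (g 1)⁻¹ • (- (g 0 • a) - g 2 • u - g 3 • v) := by
        have h2 : - (g 0 • a) - g 2 • u - g 3 • v = g 1 • b := by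
          rw [← sub_eq_zero, ← neg_eq_zero, ← hg]; abel
        rw [h2, smul_smul, inv_mul_cancel₀ h, one_smul]
      rw [h1]
      exact A'.smul_mem _ (A'.sub_mem (A'.sub_mem (A'.neg_mem (A'.smul_mem _ ha))
        (A'.smul_mem _ huA')) (A'.smul_mem _ hvA'))
    have h2 : g 2 = 0 ∧ g 3 = 0 := by
      rw [h0, h1, zero_smul, zero_smul, zero_add, zero_add] at hg
      have h3 := Fintype.linearIndependent_iff.1 hf ![g 2, g 3] (by
        rw [Fin.sum_univ_two]
        apply Subtype.ext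
        simpa using hg)
      exact ⟨by simpa using h3 0, by simpa using h3 1⟩
    intro i
    fin_cases i
    · exact h0
    · exact h1
    · exact h2.1
    · exact h2.2
  refine ⟨![a, b, u, v], hli, ha, haA, hb, hbA', huA, huA', hvA, hvA', ?_⟩
  set M : Matrix (Fin 4) (Fin 4) ℂ := Matrix.of ![a, b, u, v] with hM
  have hu : IsUnit M := by
    rw [← Matrix.linearIndependent_rows_iff_isUnit]
    exact hli
  have hdet : IsUnit M.det := (Matrix.isUnit_iff_isUnit_det M).1 hu
  have hinv : M * M⁻¹ = 1 := Matrix.mul_nonsing_inv M hdet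
  refine ⟨fun l => M⁻¹ l 0, fun l => M⁻¹ l 1, fun i => ?_, fun i => ?_⟩
  · have := congrFun (congrFun hinv i) 0
    rw [Matrix.mul_apply, Matrix.one_apply] at this
    exact this
  · have := congrFun (congrFun hinv i) 1
    rw [Matrix.mul_apply, Matrix.one_apply] at this
    exact this

/-- three relations from their values at two points -/
theorem kos_three {η : F2 4} (hfin : Module.Finite ℂ (EE η 3)) {X Y Z : (Fin 4 → ℂ) →ₗ[ℂ] EE η 3}
    (hX : X ∈ RL η) (hY : Y ∈ RL η) (hZ : Z ∈ RL η) {p q : Fin 4 → ℂ} {e e' : EE η 3}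
    (hXp : X p = 0) (hXq : X q = e) (hYp : Y p = e') (hYq : Y q = 0) (hZp : Z p = e + e')
    (hind : ∀ s t : ℂ, s • e + t • e' = 0 → s = 0 ∧ t = 0) : 3 ≤ Module.finrank ℂ (RL η) := by
  have hli0 : LinearIndependent ℂ ![X, Y, Z] := by
    have key := Fintype.linearIndependent_iff (R := ℂ) (v := ![X, Y, Z])
    refine key.2 fun g hg => ?_
    rw [Fin.sum_univ_three] at hg
    have h0 : g 0 • X + g 1 • Y + g 2 • Z = 0 := hg
    have h1 := congrArg (fun T : (Fin 4 → ℂ) →ₗ[ℂ] EE η 3 => T p) h0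
    have h2 := congrArg (fun T : (Fin 4 → ℂ) →ₗ[ℂ] EE η 3 => T q) h0
    simp only [LinearMap.add_apply, LinearMap.smul_apply, LinearMap.zero_apply, hXp, hXq, hYp, hYq,
      hZp, smul_zero, zero_add, add_zero] at h1 h2
    have h3 := hind (g 2) (g 1 + g 2) (by rw [← h1, add_smul, smul_add]; abel)
    have h4 : g 2 = 0 := h3.1
    have h5 : g 1 = 0 := by have := h3.2; rw [h4, add_zero] at this; exact this
    rw [h4, zero_smul, add_zero] at h2
    have h6 := (hind (g 0) 0 (by rw [h2, zero_smul, add_zero])).1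
    intro i
    fin_cases i
    · exact h6
    · exact h5
    · exact h4
  have hm : ∀ i, (![X, Y, Z] : Fin 3 → ((Fin 4 → ℂ) →ₗ[ℂ] EE η 3)) i ∈ RL η := by
    intro i
    fin_cases i
    · exact hX
    · exact hY
    · exact hZ
  have hli : LinearIndependent ℂ (fun i : Fin 3 => (⟨![X, Y, Z] i, hm i⟩ : RL η)) :=
    LinearIndependent.of_comp (RL η).subtype hli0
  have := hli.fintype_card_le_finrank
  simpa using this

end Pool.Agent.Helper53.TK
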