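import Pool.Agent.Helper71.FC.Flag
import Pool.Agent.Helper18.LB.Dim3

/-! Plane facts for `e_0 = e_1 = 0`, `e_2 = 1` (memo_z4, section 0), part 1: basic facts in good coordinates.
`γ(σ, ξ)` is the polynomial with `σ ∧ ξ = γ η`. -/

set_option autoImplicit false

namespace Pool.Agent.Helper53.TK

open MvPolynomial
open scoped BigOperators
open Pool.Agent.Helper71.FL (w12 pf ct Dec Closed dd at0 emb res)
open Pool.Agent.Helper93 (lsub lmap OF pb)
open Pool.Agent.Helper71.FC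
open Pool.Agent.Helper18.LB (finrank_homog finite_homog)

variable {n m : ℕ}

/-! ### restriction to `x_0 = 0` -/

theorem at0_X0 : at0 n ℂ (X 0) = 0 := by
  unfold at0
  rw [aeval_X, Fin.cons_zero]

theorem at0_Xs (i : Fin n) : at0 n ℂ (X i.succ) = X i := by
  unfold at0
  rw [aeval_X, Fin.cons_succ]

theorem at0_C (c : ℂ) : at0 n ℂ (C c) = C c := by
  unfold at0
  rw [aeval_C]
  rfl

theorem at0_emb (f : Pn n) : at0 n ℂ (emb n ℂ f) = f := by
  have h : (at0 n ℂ).comp (emb n ℂ) = AlgHom.id ℂ (Pn n) := by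
    apply MvPolynomial.algHom_ext
    intro i
    rw [AlgHom.comp_apply, AlgHom.id_apply]
    unfold emb
    rw [rename_X, at0_Xs]
  exact congrArg (fun g : Pn n →ₐ[ℂ] Pn n => g f) h

theorem emb_hom {f : Pn n} {d : ℕ} (h : f.IsHomogeneous d) : (emb n ℂ f).IsHomogeneous d :=
  h.rename_isHomogeneous

theorem at0_hom {f : Pn (n + 1)} {d : ℕ} (h : f.IsHomogeneous d) : (at0 n ℂ f).IsHomogeneous d := by
  unfold at0
  have h1 := h.aeval (Fin.cons (0 : Pn n) (fun i => (X i : Pn n)) : Fin (n + 1) → Pn n) (n := 1)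
    (by
      intro i
      refine Fin.cases ?_ (fun j => ?_) i
      · rw [Fin.cons_zero]; exact isHomogeneous_zero _ _ _
      · rw [Fin.cons_succ]; exact isHomogeneous_X _ _)
  rwa [one_mul] at h1

theorem X0_ne : (X 0 : Pn (n + 1)) ≠ 0 := X_ne_zero 0

theorem hom_of_X0_mul {g : Pn (n + 1)} {d : ℕ} (h : (X 0 * g).IsHomogeneous (d + 1)) :
    g.IsHomogeneous d := by
  intro m hm
  have h1 : coeff (Finsupp.single 0 1 + m) (X 0 * g) ≠ 0 := by
    rw [coeff_X_mul]; exact hm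
  have h2 := h h1
  rw [Finsupp.weight_apply] at h2 ⊢
  rw [Finsupp.sum_add_index' (by simp) (by intro a b c; simp),
    Finsupp.sum_single_index (by simp)] at h2
  simp only [Pi.one_apply, smul_eq_mul, mul_one] at h2 ⊢
  omega

/-- homogeneous quotient -/
theorem hom_quot' {f g : Pn n} {k d : ℕ} (hg : g.IsHomogeneous d) (hg0 : g ≠ 0)
    (h : (f * g).IsHomogeneous (k + d)) : f.IsHomogeneous k := by
  have h0 : ∀ i, homogeneousComponent (k + d) (homogeneousComponent i f * g) =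
      if i = k then homogeneousComponent k f * g else 0 := by
    intro i
    rw [homogeneousComponent_of_mem (n := i + d) ((homogeneousComponent_isHomogeneous i f).mul hg)]
    by_cases h : i = k
    · rw [if_pos h, if_pos (by omega), h]
    · rw [if_neg h, if_neg (by omega)]
  have h1 : homogeneousComponent (k + d) (f * g) = homogeneousComponent k f * g := by
    conv_lhs => rw [← sum_homogeneousComponent f, Finset.sum_mul, map_sum]
    rw [Finset.sum_congr rfl (fun i _ => h0 i), Finset.sum_ite_eq']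
    split_ifs with h
    · rfl
    · rw [homogeneousComponent_eq_zero, zero_mul]
      rw [Finset.mem_range] at h
      omega
  rw [homogeneousComponent_eq_self h] at h1
  have h2 : f = homogeneousComponent k f := mul_right_cancel₀ hg0 h1
  rw [h2]
  exact homogeneousComponent_isHomogeneous k f

/-- the quotient vanishes if the degree is too small -/
theorem hom_quot0' {f g : Pn n} {k d : ℕ} (hg : g.IsHomogeneous d) (hg0 : g ≠ 0) (hk : k < d)
    (h : (f * g).IsHomogeneous k) : f = 0 := by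
  have h0 : ∀ i, homogeneousComponent k (homogeneousComponent i f * g) = 0 := by
    intro i
    rw [homogeneousComponent_of_mem (n := i + d) ((homogeneousComponent_isHomogeneous i f).mul hg),
      if_neg (by omega)]
  have h1 : homogeneousComponent k (f * g) = 0 := by
    conv_lhs => rw [← sum_homogeneousComponent f, Finset.sum_mul, map_sum]
    exact Finset.sum_eq_zero fun i _ => h0 i
  rw [homogeneousComponent_eq_self h] at h1
  exact (mul_eq_zero.1 h1).resolve_right hg0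

theorem nz_of_cop {ι : Type} {A : ι → Pn m} (hc : CopF A) : ∃ j, A j ≠ 0 := by
  by_contra hcon
  push Not at hcon
  exact not_isUnit_zero (hc 0 (fun i => by rw [hcon i]))

/-- proportional to a family without common factor -/
theorem prop_of_cop {ι : Type} [Finite ι] {A B : ι → Pn m} (hc : CopF A)
    (hr : ∀ i j, A i * B j = A j * B i) : ∃ g, ∀ i, B i = g * A i := by
  classical
  obtain ⟨j0, hj0⟩ := nz_of_cop hc
  have h1 : A j0 ∣ B j0 := by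
    let _ : Fintype ι := Fintype.ofFinite ι
    let _ : NormalizationMonoid (Pn m) :=
      (UniqueFactorizationMonoid.strongNormalizationMonoid).toNormalizationMonoid
    let _ : NormalizedGCDMonoid (Pn m) :=
      UniqueFactorizationMonoid.toNormalizedGCDMonoid _
    have h1 : A j0 ∣ Finset.univ.gcd (fun j => A j * B j0) :=
      Finset.dvd_gcd (fun j _ => by rw [hr j j0]; exact dvd_mul_right _ _)
    have h2 := Finset.gcd_mul_right' (Finset.univ : Finset ι) A (B j0)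
    have h3 : IsUnit (Finset.univ.gcd A) := hc _ (fun i => Finset.gcd_dvd (Finset.mem_univ i))
    have h4 : A j0 ∣ Finset.univ.gcd A * B j0 := h1.trans h2.dvd
    exact (h3.dvd_mul_left).mp h4
  obtain ⟨g, hg⟩ := h1
  refine ⟨g, fun i => ?_⟩
  apply mul_left_cancel₀ hj0
  rw [hr j0 i, hg]
  ring

/-! ### the data -/

/-- good coordinates for a form in three variables with `E_0 = E_1 = 0`, `E_2 = ℂ σ` -/
structure Gd (η : F2 3) (σ : F1 3) : Prop where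
  fol : Fol η
  e0 : EE η 0 = ⊥
  e1 : EE η 1 = ⊥
  mem : σ ∈ EE η 2
  one : ∀ ξ ∈ EE η 2, ∃ c : ℂ, ξ = c • σ
  cop : CopF (fun i => at0 2 ℂ (σ i))
  nz : ∃ i j, at0 2 ℂ (η i j) ≠ 0

variable {η : F2 3} {σ : F1 3}

/-- `γ(σ, ξ)` -/
theorem Gd.gam (h : Gd η σ) {k : ℕ} {ξ : F1 3} (hξ : ξ ∈ EE η (k + 1)) :
    ∃ γ : Pn 3, γ.IsHomogeneous k ∧ ∀ i j, w11 σ ξ i j = γ * η i j := by
  obtain ⟨γ, hγ⟩ := wedge_eq_mul h.fol.dec h.fol.prim h.mem.2 hξ.2
  refine ⟨γ, ?_, hγ⟩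
  obtain ⟨i, j, hij⟩ := h.nz
  have hij' : η i j ≠ 0 := by
    intro h0
    rw [h0, map_zero] at hij
    exact hij rfl
  apply hom_quot' (h.fol.hom i j) hij'
  rw [← hγ]
  have e : k + 3 = 2 + (k + 1) := by ring
  rw [e]
  exact ((h.mem.1 i).mul (hξ.1 j)).sub ((h.mem.1 j).mul (hξ.1 i))

/-- if `σ ∧ ξ` vanishes on `x_0 = 0` then `ξ = g σ + x_0 ξ'` -/
theorem Gd.split (h : Gd η σ) {k : ℕ} {ξ : F1 3} (hξ : ∀ i, (ξ i).IsHomogeneous (k + 2))
    (h0 : ∀ i j, at0 2 ℂ (w11 σ ξ i j) = 0) :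
    ∃ g : Pn 3, g.IsHomogeneous k ∧ ∃ ξ' : F1 3, (∀ i, (ξ' i).IsHomogeneous (k + 1)) ∧
      ∀ i, ξ i = g * σ i + X 0 * ξ' i := by
  have h1 : ∀ i j, at0 2 ℂ (σ i) * at0 2 ℂ (ξ j) = at0 2 ℂ (σ j) * at0 2 ℂ (ξ i) := by
    intro i j
    have := h0 i j
    unfold w11 at this
    rw [map_sub, map_mul, map_mul] at this
    exact sub_eq_zero.mp this
  obtain ⟨g, hg⟩ := prop_of_cop h.cop h1
  obtain ⟨j0, hj0⟩ := nz_of_cop h.cop
  have hgh : g.IsHomogeneous k := by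
    apply hom_quot' (at0_hom (h.mem.1 j0)) hj0
    rw [← hg j0]
    exact at0_hom (hξ j0)
  refine ⟨emb 2 ℂ g, emb_hom hgh, ?_⟩
  have h2 : ∀ i, ∃ q, ξ i - emb 2 ℂ g * σ i = X 0 * q := by
    intro i
    rw [← at0_eq_zero_iff, map_sub, map_mul, at0_emb, hg i, sub_self]
  choose ξ' hξ' using h2
  refine ⟨ξ', fun i => ?_, fun i => ?_⟩
  · apply hom_of_X0_mul
    rw [← hξ']
    exact (hξ i).sub ((emb_hom hgh).mul (h.mem.1 i))
  · rw [← hξ']
    ring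

theorem w12_smul' {n : ℕ} (f : Pn n) (ξ : F1 n) (θ : F2 n) (i j l : Fin n) :
    w12 (fun i => f * ξ i) θ i j l = f * w12 ξ θ i j l := by
  unfold w12
  ring

theorem w12_lin {n : ℕ} (g : Pn n) (σ ξ' : F1 n) (f : Pn n) (θ : F2 n) (i j l : Fin n) :
    w12 (fun i => g * σ i + f * ξ' i) θ i j l = g * w12 σ θ i j l + f * w12 ξ' θ i j l := by
  unfold w12
  ring

/-- elements of `E` whose `γ` vanishes on `x_0 = 0` -/
theorem Gd.splitE (h : Gd η σ) {k : ℕ} {ξ : F1 3} (hξ : ξ ∈ EE η (k + 2))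
    (h0 : ∀ i j, at0 2 ℂ (w11 σ ξ i j) = 0) :
    ∃ g : Pn 3, g.IsHomogeneous k ∧ ∃ ξ' ∈ EE η (k + 1), ∀ i, ξ i = g * σ i + X 0 * ξ' i := by
  obtain ⟨g, hg, ξ', hξ'1, hξ'2⟩ := h.split hξ.1 h0
  refine ⟨g, hg, ξ', ⟨hξ'1, fun i j l => ?_⟩, hξ'2⟩
  have h1 := hξ.2 i j l
  have h2 : ξ = fun i => g * σ i + X 0 * ξ' i := funext hξ'2
  rw [h2, w12_lin, h.mem.2, mul_zero, zero_add] at h1
  exact (mul_eq_zero.1 h1).resolve_left X0_ne

/-! ### the map `ξ ↦ γ(σ, ξ)` restricted to `x_0 = 0` -/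

/-- the graph of `ξ ↦ at0 γ(σ, ξ)`; the value is unique because `at0 η ≠ 0` -/
theorem Gd.uniq (h : Gd η σ) {a b : Pn 2} {ξ : F1 3}
    (ha : ∀ i j, at0 2 ℂ (w11 σ ξ i j) = a * at0 2 ℂ (η i j))
    (hb : ∀ i j, at0 2 ℂ (w11 σ ξ i j) = b * at0 2 ℂ (η i j)) : a = b := by
  obtain ⟨i, j, hij⟩ := h.nz
  apply mul_right_cancel₀ hij
  rw [← ha, hb]

theorem Gd.exT (h : Gd η σ) {k : ℕ} {ξ : F1 3} (hξ : ξ ∈ EE η (k + 1)) :
    ∃ a : Pn 2, a.IsHomogeneous k ∧ ∀ i j, at0 2 ℂ (w11 σ ξ i j) = a * at0 2 ℂ (η i j) := by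
  obtain ⟨γ, hγ1, hγ2⟩ := h.gam hξ
  refine ⟨at0 2 ℂ γ, at0_hom hγ1, fun i j => ?_⟩
  rw [hγ2, map_mul]

/-- `ξ ↦ at0 γ(σ, ξ)` -/
noncomputable def Gd.T (h : Gd η σ) (k : ℕ) :
    EE η (k + 1) →ₗ[ℂ] homogeneousSubmodule (Fin 2) ℂ k where
  toFun ξ := ⟨(h.exT ξ.2).choose, (h.exT ξ.2).choose_spec.1⟩
  map_add' := by
    intro ξ ζ
    apply Subtype.ext
    refine h.uniq (h.exT (ξ + ζ).2).choose_spec.2 fun i j => ?_
    have e1 := (h.exT ξ.2).choose_spec.2 i j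
    have e2 := (h.exT ζ.2).choose_spec.2 i j
    show at0 2 ℂ (w11 σ (ξ.1 + ζ.1) i j) = ((h.exT ξ.2).choose + (h.exT ζ.2).choose) * _
    have e3 : w11 σ (ξ.1 + ζ.1) i j = w11 σ ξ.1 i j + w11 σ ζ.1 i j := by
      unfold w11
      rw [Pi.add_apply, Pi.add_apply]
      ring
    rw [e3, map_add, e1, e2]
    ring
  map_smul' := by
    intro c ξ
    apply Subtype.ext
    refine h.uniq (h.exT (c • ξ).2).choose_spec.2 fun i j => ?_
    have e1 := (h.exT ξ.2).choose_spec.2 i j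
    show at0 2 ℂ (w11 σ (c • ξ.1) i j) = (c • (h.exT ξ.2).choose) * _
    have e3 : w11 σ (c • ξ.1) i j = C c * w11 σ ξ.1 i j := by
      unfold w11
      rw [Pi.smul_apply, Pi.smul_apply, smul_eq_C_mul, smul_eq_C_mul]
      ring
    rw [e3, map_mul, e1, at0_C, smul_eq_C_mul]
    ring

theorem Gd.T_spec (h : Gd η σ) {k : ℕ} (ξ : EE η (k + 1)) (i j : Fin 3) :
    at0 2 ℂ (w11 σ ξ.1 i j) = (h.T k ξ).1 * at0 2 ℂ (η i j) :=
  (h.exT ξ.2).choose_spec.2 i j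

theorem Gd.T_eq (h : Gd η σ) {k : ℕ} (ξ : EE η (k + 1)) {a : Pn 2}
    (ha : ∀ i j, at0 2 ℂ (w11 σ ξ.1 i j) = a * at0 2 ℂ (η i j)) : (h.T k ξ).1 = a :=
  h.uniq (h.T_spec ξ) ha

/-! ### the kernel -/

/-- `{g σ : deg g = k}` -/
noncomputable def SA (σ : F1 3) (k : ℕ) : homogeneousSubmodule (Fin 3) ℂ k →ₗ[ℂ] F1 3 where
  toFun g := fun i => g.1 * σ i
  map_add' := by
    intro a b
    funext i
    show (a.1 + b.1) * σ i = a.1 * σ i + b.1 * σ i
    ring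
  map_smul' := by
    intro c a
    funext i
    show (c • a.1) * σ i = c • (a.1 * σ i)
    rw [smul_mul_assoc]

/-- `{x_0 ξ : ξ ∈ E_k}` -/
noncomputable def XB (η : F2 3) (k : ℕ) : EE η k →ₗ[ℂ] F1 3 where
  toFun ξ := fun i => X 0 * ξ.1 i
  map_add' := by
    intro a b
    funext i
    show X 0 * (a.1 i + b.1 i) = X 0 * a.1 i + X 0 * b.1 i
    ring
  map_smul' := by
    intro c a
    funext i
    show X 0 * (c • a.1 i) = c • (X 0 * a.1 i)
    rw [mul_smul_comm]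

theorem XB_apply (k : ℕ) (ξ : EE η k) (i : Fin 3) : XB η k ξ i = X 0 * ξ.1 i := rfl

theorem SA_apply (k : ℕ) (g : homogeneousSubmodule (Fin 3) ℂ k) (i : Fin 3) :
    SA σ k g i = g.1 * σ i := rfl

theorem Gd.SA_inj (h : Gd η σ) (k : ℕ) : Function.Injective (SA σ k) := by
  rw [← LinearMap.ker_eq_bot, LinearMap.ker_eq_bot']
  intro g hg
  obtain ⟨j0, hj0⟩ := nz_of_cop h.cop
  have h1 : g.1 * σ j0 = 0 := congrFun hg j0
  have h2 : σ j0 ≠ 0 := by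
    intro h0
    apply hj0
    show at0 2 ℂ (σ j0) = 0
    rw [h0, map_zero]
  exact Subtype.ext ((mul_eq_zero.1 h1).resolve_right h2)

theorem XB_inj (k : ℕ) : Function.Injective (XB η k) := by
  rw [← LinearMap.ker_eq_bot, LinearMap.ker_eq_bot']
  intro ξ hξ
  apply Subtype.ext
  funext i
  have h1 : X 0 * ξ.1 i = 0 := congrFun hξ i
  exact (mul_eq_zero.1 h1).resolve_left X0_ne

theorem Gd.SA_mem (h : Gd η σ) {k : ℕ} (g : homogeneousSubmodule (Fin 3) ℂ k) :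
    SA σ k g ∈ EE η (k + 2) := by
  refine ⟨fun i => ?_, fun i j l => ?_⟩
  · exact (g.2 : (g.1).IsHomogeneous k).mul (h.mem.1 i)
  · have h1 := h.mem.2 i j l
    unfold w12 at h1 ⊢
    rw [SA_apply, SA_apply, SA_apply]
    linear_combination g.1 * h1

theorem XB_mem {k : ℕ} (ξ : EE η k) : XB η k ξ ∈ EE η (k + 1) := by
  refine ⟨fun i => ?_, fun i j l => ?_⟩
  · have := (isHomogeneous_X ℂ (0 : Fin 3)).mul (ξ.2.1 i)
    rw [add_comm 1 k] at this
    exact this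
  · have h1 := ξ.2.2 i j l
    unfold w12 at h1 ⊢
    rw [XB_apply, XB_apply, XB_apply]
    linear_combination (X 0 : Pn 3) * h1

theorem Gd.T_SA (h : Gd η σ) {k : ℕ} (g : homogeneousSubmodule (Fin 3) ℂ k)
    (hm : SA σ k g ∈ EE η (k + 1 + 1)) : h.T (k + 1) ⟨SA σ k g, hm⟩ = 0 := by
  have h2 : (h.T (k + 1) ⟨SA σ k g, hm⟩).1 = 0 := by
    apply h.T_eq
    intro i j
    have e : w11 σ (SA σ k g) i j = 0 := by
      show σ i * (g.1 * σ j) - σ j * (g.1 * σ i) = 0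
      ring
    rw [e, map_zero, zero_mul]
  exact Subtype.ext h2

theorem Gd.T_XB (h : Gd η σ) {k : ℕ} (ξ : EE η (k + 1))
    (hm : XB η (k + 1) ξ ∈ EE η (k + 1 + 1)) : h.T (k + 1) ⟨XB η (k + 1) ξ, hm⟩ = 0 := by
  have h2 : (h.T (k + 1) ⟨XB η (k + 1) ξ, hm⟩).1 = 0 := by
    apply h.T_eq
    intro i j
    have e : w11 σ (XB η (k + 1) ξ) i j = X 0 * w11 σ ξ.1 i j := by
      show σ i * (X 0 * ξ.1 j) - σ j * (X 0 * ξ.1 i) = X 0 * (σ i * ξ.1 j - σ j * ξ.1 i)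
      ring
    rw [e, map_mul, at0_X0, zero_mul, zero_mul]
  exact Subtype.ext h2

theorem Gd.of_T_zero (h : Gd η σ) {k : ℕ} (ξ : EE η (k + 1 + 1)) (h0 : h.T (k + 1) ξ = 0) :
    ∃ (g : homogeneousSubmodule (Fin 3) ℂ k) (ξ' : EE η (k + 1)),
      ξ.1 = SA σ k g + XB η (k + 1) ξ' := by
  have h1 : ∀ i j, at0 2 ℂ (w11 σ ξ.1 i j) = 0 := by
    intro i j
    rw [h.T_spec ξ, h0]
    exact zero_mul _
  obtain ⟨g, hg, ξ', hξ'1, hξ'2⟩ := h.splitE ξ.2 h1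
  exact ⟨⟨g, hg⟩, ⟨ξ', hξ'1⟩, funext hξ'2⟩

/-- the kernel of `T` -/
theorem Gd.ker_T (h : Gd η σ) (k : ℕ) :
    (LinearMap.ker (h.T (k + 1))).map (EE η (k + 1 + 1)).subtype =
      LinearMap.range (SA σ k) ⊔ LinearMap.range (XB η (k + 1)) := by
  apply le_antisymm
  · intro ζ hζ
    obtain ⟨ξ, hξ, rfl⟩ := Submodule.mem_map.mp hζ
    obtain ⟨g, ξ', hgx⟩ := h.of_T_zero ξ (LinearMap.mem_ker.mp hξ)
    exact Submodule.mem_sup.mpr ⟨SA σ k g, ⟨g, rfl⟩, XB η (k + 1) ξ', ⟨ξ', rfl⟩, hgx.symm⟩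
  · apply sup_le
    · rintro _ ⟨g, rfl⟩
      have hm : SA σ k g ∈ EE η (k + 1 + 1) := h.SA_mem g
      exact Submodule.mem_map.mpr ⟨⟨SA σ k g, hm⟩, LinearMap.mem_ker.mpr (h.T_SA g hm), rfl⟩
    · rintro _ ⟨ξ, rfl⟩
      have hm : XB η (k + 1) ξ ∈ EE η (k + 1 + 1) := XB_mem ξ
      exact Submodule.mem_map.mpr ⟨⟨XB η (k + 1) ξ, hm⟩, LinearMap.mem_ker.mpr (h.T_XB ξ hm), rfl⟩

/-- the intersection of the two parts of the kernel, degree `≥ 3` -/
theorem Gd.inf_succ (h : Gd η σ) (k : ℕ) :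
    LinearMap.range (SA σ (k + 1)) ⊓ LinearMap.range (XB η (k + 2)) =
      (LinearMap.range (SA σ k)).map (LinearMap.mulLeft ℂ (X 0 : Pn 3) |>.compLeft (Fin 3)) := by
  apply le_antisymm
  · rintro ζ ⟨⟨g, rfl⟩, ⟨ξ, hξ⟩⟩
    have h1 : ∀ i, at0 2 ℂ g.1 * at0 2 ℂ (σ i) = 0 := by
      intro i
      have h2 : X 0 * ξ.1 i = g.1 * σ i := congrFun hξ i
      rw [← map_mul, ← h2, map_mul, at0_X0, zero_mul]
    obtain ⟨j0, hj0⟩ := nz_of_cop h.cop
    have h2 : at0 2 ℂ g.1 = 0 := (mul_eq_zero.1 (h1 j0)).resolve_right hj0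
    obtain ⟨g', hg'⟩ := (at0_eq_zero_iff _).mp h2
    have h3 : g'.IsHomogeneous k := by
      apply hom_of_X0_mul
      rw [← hg']
      exact g.2
    refine ⟨SA σ k ⟨g', h3⟩, ⟨_, rfl⟩, ?_⟩
    funext i
    show X 0 * (g' * σ i) = g.1 * σ i
    rw [hg']
    ring
  · rintro _ ⟨_, ⟨g, rfl⟩, rfl⟩
    refine ⟨⟨⟨X 0 * g.1, ?_⟩, ?_⟩, ⟨⟨SA σ k g, h.SA_mem g⟩, rfl⟩⟩
    · have := (isHomogeneous_X ℂ (0 : Fin 3)).mul (g.2 : (g.1).IsHomogeneous k)
      rw [add_comm 1 k] at this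
      exact this
    · funext i
      show X 0 * g.1 * σ i = X 0 * (g.1 * σ i)
      ring

/-- the second part of the kernel in degree `3` -/
theorem Gd.inf_zero (h : Gd η σ) :
    LinearMap.range (SA σ 0) ⊓ LinearMap.range (XB η 1) = ⊥ := by
  rw [eq_bot_iff]
  rintro ζ ⟨-, ⟨ξ, rfl⟩⟩
  have h1 : ξ.1 = 0 := (Submodule.mem_bot ℂ).mp (h.e1 ▸ ξ.2 : ξ.1 ∈ (⊥ : Submodule ℂ (F1 3)))
  rw [Submodule.mem_bot]
  funext i
  show X 0 * ξ.1 i = 0
  rw [h1]
  show X 0 * (0 : Pn 3) = 0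
  rw [mul_zero]

end Pool.Agent.Helper53.TK
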