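import Pool.Agent.Helper53.TK.Plj

/-! Plane facts, part 2: dimensions and generation in good coordinates. -/

set_option autoImplicit false

namespace Pool.Agent.Helper53.TK

open MvPolynomial
open scoped BigOperators
open Pool.Agent.Helper71.FL (w12 pf ct Dec Closed dd at0 emb res)
open Pool.Agent.Helper93 (lsub lmap OF pb)
open Pool.Agent.Helper71.FC
open Pool.Agent.Helper18.LB (finrank_homog finite_homog)

variable {n : ℕ} {η : F2 3} {σ : F1 3}

/-- homogeneous polynomials of positive degree -/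
theorem hom_decomp {d : ℕ} {f : Pn n} (hf : f.IsHomogeneous (d + 1)) :
    ∃ g : Fin n → Pn n, (∀ i, (g i).IsHomogeneous d) ∧ f = ∑ i, X i * g i := by
  refine ⟨fun i => C (1 / ((d : ℂ) + 1)) * pderiv i f, fun i => ?_, ?_⟩
  · have h1 : (pderiv i f).IsHomogeneous d := by
      have := hf.pderiv (i := i)
      simpa using this
    have := (isHomogeneous_C (Fin n) (1 / ((d : ℂ) + 1))).mul h1
    rwa [zero_add] at this
  · have h1 := hf.sum_X_mul_pderiv
    have h2 : ((d : ℂ) + 1) ≠ 0 := by exact_mod_cast Nat.succ_ne_zero d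
    have h3 : ∑ i, X i * (C (1 / ((d : ℂ) + 1)) * pderiv i f) =
        C (1 / ((d : ℂ) + 1)) * ∑ i, X i * pderiv i f := by
      rw [Finset.mul_sum]
      exact Finset.sum_congr rfl fun i _ => by ring
    rw [h3, h1, nsmul_eq_mul, ← mul_assoc]
    have h4 : (C (1 / ((d : ℂ) + 1)) * (((d + 1 : ℕ) : Pn n)) : Pn n) = 1 := by
      have : (((d + 1 : ℕ) : Pn n)) = C ((d : ℂ) + 1) := by
        rw [map_add, map_natCast, C_1]
        push_cast
        rfl
      rw [this, ← C_mul, one_div, inv_mul_cancel₀ h2, C_1]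
    rw [h4, one_mul]

/-- multiplication of a 1-form by `x_0` -/
noncomputable def mX : F1 3 →ₗ[ℂ] F1 3 :=
  (LinearMap.mulLeft ℂ (X 0 : Pn 3)).compLeft (Fin 3)

theorem mX_inj : Function.Injective mX := by
  rw [← LinearMap.ker_eq_bot, LinearMap.ker_eq_bot']
  intro ξ hξ
  funext i
  have h1 : (X 0 : Pn 3) * ξ i = 0 := congrFun hξ i
  exact (mul_eq_zero.1 h1).resolve_left X0_ne

theorem Gd.finrank_SA (h : Gd η σ) (k : ℕ) :
    Module.finrank ℂ (LinearMap.range (SA σ k)) = (2 + k).choose k := by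
  rw [LinearMap.finrank_range_of_inj (h.SA_inj k), finrank_homog]

theorem finrank_XB (k : ℕ) :
    Module.finrank ℂ (LinearMap.range (XB η k)) = Module.finrank ℂ (EE η k) :=
  LinearMap.finrank_range_of_inj (XB_inj k)

/-- rank of `T` -/
noncomputable def Gd.rT (h : Gd η σ) (k : ℕ) : ℕ := Module.finrank ℂ (LinearMap.range (h.T k))

theorem Gd.rT_le (h : Gd η σ) (k : ℕ) : h.rT k ≤ k + 1 := by
  haveI := finite_homog 2 k
  have h1 := Submodule.finrank_le (LinearMap.range (h.T k))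
  rw [finrank_homog] at h1
  refine h1.trans (le_of_eq ?_)
  rw [add_comm 1 k, Nat.choose_succ_self_right]

theorem Gd.count (h : Gd η σ) (k : ℕ) :
    Module.finrank ℂ (EE η (k + 1 + 1 + 1)) + (2 + k).choose k =
      h.rT (k + 1 + 1) + (2 + (k + 1)).choose (k + 1) + Module.finrank ℂ (EE η (k + 1 + 1)) := by
  haveI := finite_EE η (k + 1 + 1 + 1)
  haveI := finite_EE η (k + 1 + 1)
  haveI := finite_homog 3 (k + 1)
  haveI := finite_homog 3 k
  have h1 := LinearMap.finrank_range_add_finrank_ker (h.T (k + 1 + 1))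
  have h2 : Module.finrank ℂ (LinearMap.ker (h.T (k + 1 + 1))) =
      Module.finrank ℂ ((LinearMap.range (SA σ (k + 1)) ⊔ LinearMap.range (XB η (k + 1 + 1)) :
        Submodule ℂ (F1 3))) := by
    rw [← h.ker_T (k + 1)]
    exact (Submodule.finrank_map_subtype_eq _ _).symm
  have h3 := Submodule.finrank_sup_add_finrank_inf_eq (LinearMap.range (SA σ (k + 1)))
    (LinearMap.range (XB η (k + 1 + 1)))
  have h4 : Module.finrank ℂ ((LinearMap.range (SA σ (k + 1)) ⊓ LinearMap.range (XB η (k + 1 + 1)) :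
      Submodule ℂ (F1 3))) = (2 + k).choose k := by
    have e := h.inf_succ k
    have e2 : (LinearMap.range (SA σ (k + 1)) ⊓ LinearMap.range (XB η (k + 1 + 1)) :
      Submodule ℂ (F1 3)) = (LinearMap.range (SA σ k)).map mX := e
    rw [e2, ← (Submodule.equivMapOfInjective mX mX_inj (LinearMap.range (SA σ k))).finrank_eq,
      h.finrank_SA]
  rw [h4, h.finrank_SA, finrank_XB] at h3
  unfold Gd.rT
  omega

theorem choose_step (k : ℕ) : (2 + (k + 1)).choose (k + 1) = (2 + k).choose k + (k + 2) := by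
  have e1 : 2 + (k + 1) = (k + 2) + 1 := by ring
  have e2 : 2 + k = k + 2 := by ring
  rw [e1, e2, Nat.choose_succ_succ (k + 2) k]
  have e3 : (k + 2).choose (k + 1) = k + 2 := by
    rw [show k + 2 = (k + 1) + 1 from rfl, Nat.choose_succ_self_right]
  rw [Nat.succ_eq_add_one, e3]

theorem Gd.step (h : Gd η σ) (k : ℕ) :
    Module.finrank ℂ (EE η (k + 1 + 1 + 1)) =
      h.rT (k + 1 + 1) + (k + 2) + Module.finrank ℂ (EE η (k + 1 + 1)) := by
  have h1 := h.count k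
  rw [choose_step] at h1
  omega

theorem Gd.finrank_two (h : Gd η σ) : Module.finrank ℂ (EE η 2) = 1 := by
  have hσ : σ ≠ 0 := by
    rintro rfl
    obtain ⟨j, hj⟩ := nz_of_cop h.cop
    apply hj
    show at0 2 ℂ (0 : Pn 3) = 0
    rw [map_zero]
  apply finrank_eq_one (⟨σ, h.mem⟩ : EE η 2)
  · intro h0
    exact hσ (congrArg Subtype.val h0)
  · intro ξ
    obtain ⟨c, hc⟩ := h.one ξ.1 ξ.2
    exact ⟨c, Subtype.ext hc.symm⟩

theorem Gd.e3 (h : Gd η σ) : Module.finrank ℂ (EE η 3) = h.rT 2 + 3 := by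
  have h1 := h.step 0
  have h2 := h.finrank_two
  have h3 : Module.finrank ℂ (EE η (0 + 1 + 1)) = 1 := h2
  rw [h3] at h1
  have h4 : Module.finrank ℂ (EE η 3) = h.rT (0 + 1 + 1) + (0 + 2) + 1 := h1
  rw [h4]

theorem Gd.e3_le (h : Gd η σ) : Module.finrank ℂ (EE η 3) ≤ 6 := by
  rw [h.e3]
  have := h.rT_le 2
  omega

theorem Gd.e_le (h : Gd η σ) (k : ℕ) : Module.finrank ℂ (EE η (k + 3)) ≤
    Module.finrank ℂ (EE η (k + 2)) + 2 * k + 5 := by
  have h1 := h.step k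
  have h2 := h.rT_le (k + 1 + 1)
  have h3 : Module.finrank ℂ (EE η (k + 3)) =
      h.rT (k + 1 + 1) + (k + 2) + Module.finrank ℂ (EE η (k + 2)) := h1
  omega

/-! ### the case `e_3 = 6` -/

theorem Gd.surj_two (h : Gd η σ) (h3 : Module.finrank ℂ (EE η 3) = 6) :
    ∀ a : Pn 2, a.IsHomogeneous 2 → ∃ ξ : EE η (2 + 1), (h.T 2 ξ).1 = a := by
  haveI := finite_homog 2 2
  have h1 : h.rT 2 = 3 := by
    have := h.e3
    omega
  have h2 : LinearMap.range (h.T 2) = ⊤ := by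
    apply Submodule.eq_top_of_finrank_eq
    show h.rT 2 = _
    rw [h1, finrank_homog]
    rfl
  intro a ha
  obtain ⟨ξ, hξ⟩ := (LinearMap.range_eq_top.mp h2) ⟨a, ha⟩
  exact ⟨ξ, by rw [hξ]⟩

theorem Gd.mul_mem {k : ℕ} {ξ : F1 3} (hξ : ξ ∈ EE η k) {f : Pn 3} (hf : f.IsHomogeneous 1) :
    (fun i => f * ξ i) ∈ EE η (k + 1) := by
  refine ⟨fun i => ?_, fun i j l => ?_⟩
  · rw [add_comm k 1]
    exact hf.mul (hξ.1 i)
  · rw [w12_smul', hξ.2, mul_zero]

/-- a combination with given restricted `γ` -/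
theorem Gd.lift_step (h : Gd η σ) {k : ℕ}
    (hs : ∀ a : Pn 2, a.IsHomogeneous k → ∃ ξ : EE η (k + 1), (h.T k ξ).1 = a) {a : Pn 2}
    (ha : a.IsHomogeneous (k + 1)) : ∃ ζ : Fin 3 → F1 3, (∀ l, ζ l ∈ EE η (k + 1)) ∧
      ∀ i j, at0 2 ℂ (w11 σ (fun i => ∑ l, X l * ζ l i) i j) = a * at0 2 ℂ (η i j) := by
  obtain ⟨g, hg1, hg2⟩ := hom_decomp ha
  choose ξ hξ using fun l => hs (g l) (hg1 l)
  refine ⟨Fin.cons 0 (fun l => (ξ l).1), fun l => ?_, fun i j => ?_⟩
  · refine Fin.cases ?_ (fun l => ?_) l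
    · rw [Fin.cons_zero]
      exact Submodule.zero_mem _
    · rw [Fin.cons_succ]
      exact (ξ l).2
  · have e0 : ∀ i, ∑ l : Fin 3, X l * (Fin.cons (0 : F1 3) (fun l => (ξ l).1) : Fin 3 → F1 3) l i =
        ∑ l : Fin 2, X l.succ * (ξ l).1 i := by
      intro i
      rw [Fin.sum_univ_succ]
      simp only [Fin.cons_zero, Fin.cons_succ, Pi.zero_apply, mul_zero, zero_add]
    have e1 : w11 σ (fun i => ∑ l : Fin 3, X l *
        (Fin.cons (0 : F1 3) (fun l => (ξ l).1) : Fin 3 → F1 3) l i) i j =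
        ∑ l : Fin 2, X l.succ * w11 σ (ξ l).1 i j := by
      show σ i * (∑ l : Fin 3, X l * (Fin.cons (0 : F1 3) (fun l => (ξ l).1) : Fin 3 → F1 3) l j) -
        σ j * (∑ l : Fin 3, X l * (Fin.cons (0 : F1 3) (fun l => (ξ l).1) : Fin 3 → F1 3) l i) = _
      rw [e0, e0, Finset.mul_sum, Finset.mul_sum, ← Finset.sum_sub_distrib]
      refine Finset.sum_congr rfl fun l _ => ?_
      unfold w11
      ring
    rw [e1, map_sum, hg2, Finset.sum_mul]
    refine Finset.sum_congr rfl fun l _ => ?_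
    rw [map_mul, at0_Xs, h.T_spec, hξ]
    ring

theorem sum_mem_EE {k : ℕ} {ζ : Fin 3 → F1 3} (hζ : ∀ l, ζ l ∈ EE η k) :
    (fun i => ∑ l, X l * ζ l i) ∈ EE η (k + 1) := by
  have h1 : (fun i => ∑ l, X l * ζ l i) = ∑ l, (fun i => X l * ζ l i : F1 3) := by
    funext i
    rw [Finset.sum_apply]
  rw [h1]
  exact Submodule.sum_mem _ fun l _ => Gd.mul_mem (hζ l) (isHomogeneous_X ℂ l)

theorem Gd.surj (h : Gd η σ) (h3 : Module.finrank ℂ (EE η 3) = 6) (k : ℕ) (hk : 2 ≤ k) :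
    ∀ a : Pn 2, a.IsHomogeneous k → ∃ ξ : EE η (k + 1), (h.T k ξ).1 = a := by
  induction k, hk using Nat.le_induction with
  | base => exact h.surj_two h3
  | succ k hk ih =>
    intro a ha
    obtain ⟨ζ, hζ1, hζ2⟩ := h.lift_step ih ha
    exact ⟨⟨_, sum_mem_EE hζ1⟩, h.T_eq _ hζ2⟩

/-- `E_(k+1) = S_1 E_k` for `k ≥ 3` -/
theorem Gd.gen (h : Gd η σ) (h3 : Module.finrank ℂ (EE η 3) = 6) (k : ℕ) (hk : 3 ≤ k) {ξ : F1 3}
    (hξ : ξ ∈ EE η (k + 1)) : ∃ ζ : Fin 3 → F1 3, (∀ l, ζ l ∈ EE η k) ∧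
      ∀ i, ξ i = ∑ l, X l * ζ l i := by
  obtain ⟨k, rfl⟩ : ∃ k', k = k' + 1 + 1 := ⟨k - 2, by omega⟩
  have ha : (h.T (k + 1 + 1) ⟨ξ, hξ⟩).1.IsHomogeneous (k + 1 + 1) := (h.T (k + 1 + 1) ⟨ξ, hξ⟩).2
  obtain ⟨ζ, hζ1, hζ2⟩ := h.lift_step (h.surj h3 (k + 1) (by omega)) ha
  have hm : (ξ - fun i => ∑ l, X l * ζ l i) ∈ EE η (k + 1 + 1 + 1) :=
    Submodule.sub_mem _ hξ (sum_mem_EE hζ1)
  have h0 : h.T (k + 1 + 1) ⟨_, hm⟩ = 0 := by
    apply Subtype.ext
    apply h.T_eq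
    intro i j
    have e1 : w11 σ (ξ - fun i => ∑ l, X l * ζ l i) i j =
        w11 σ ξ i j - w11 σ (fun i => ∑ l, X l * ζ l i) i j := by
      unfold w11
      rw [Pi.sub_apply, Pi.sub_apply]
      ring
    have e2 := h.T_spec ⟨ξ, hξ⟩ i j
    show at0 2 ℂ (w11 σ (ξ - fun i => ∑ l, X l * ζ l i) i j) = 0 * _
    rw [e1, map_sub, hζ2, zero_mul, sub_eq_zero]
    exact e2
  obtain ⟨g, ξ', hgx⟩ := h.of_T_zero ⟨_, hm⟩ h0
  obtain ⟨u, hu1, hu2⟩ := hom_decomp (g.2 : (g.1).IsHomogeneous (k + 1))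
  refine ⟨fun l => ζ l + (fun i => u l * σ i) + (if l = 0 then ξ'.1 else 0), fun l => ?_,
    fun i => ?_⟩
  · refine Submodule.add_mem _ (Submodule.add_mem _ (hζ1 l) ?_) ?_
    · exact h.SA_mem ⟨u l, hu1 l⟩
    · split_ifs
      · exact ξ'.2
      · exact Submodule.zero_mem _
  · have e3 := congrFun hgx i
    have e4 : ξ i - ∑ l, X l * ζ l i = g.1 * σ i + X 0 * ξ'.1 i := e3
    have e5 : ∑ l : Fin 3, X l * ((ζ l + (fun i => u l * σ i) +
        (if l = 0 then ξ'.1 else 0) : F1 3) i) =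
        ∑ l, X l * ζ l i + (∑ l, X l * u l) * σ i + X 0 * ξ'.1 i := by
      rw [Finset.sum_mul, ← Finset.sum_add_distrib]
      have e6 : (X 0 * ξ'.1 i : Pn 3) = ∑ l : Fin 3, X l * ((if l = 0 then ξ'.1 else 0 : F1 3) i) := by
        rw [Finset.sum_eq_single 0]
        · rw [if_pos rfl]
        · intro l _ hl
          rw [if_neg hl]
          exact mul_zero _
        · intro hh; exact absurd (Finset.mem_univ _) hh
      rw [e6, ← Finset.sum_add_distrib]
      refine Finset.sum_congr rfl fun l _ => ?_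
      rw [Pi.add_apply, Pi.add_apply]
      ring
    rw [e5, ← hu2]
    linear_combination e4

theorem Gd.ek (h : Gd η σ) (h3 : Module.finrank ℂ (EE η 3) = 6) (k : ℕ) (hk : 3 ≤ k) :
    Module.finrank ℂ (EE η k) + 3 = k ^ 2 := by
  induction k, hk using Nat.le_induction with
  | base => rw [h3]; norm_num
  | succ k hk ih =>
    obtain ⟨k, rfl⟩ : ∃ k', k = k' + 1 + 1 := ⟨k - 2, by omega⟩
    have h1 := h.step k
    have h2 : h.rT (k + 1 + 1) = k + 3 := by
      haveI := finite_homog 2 (k + 1 + 1)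
      have h4 : LinearMap.range (h.T (k + 1 + 1)) = ⊤ := by
        rw [LinearMap.range_eq_top]
        intro a
        obtain ⟨ξ, hξ⟩ := h.surj h3 (k + 1 + 1) (by omega) a.1 a.2
        exact ⟨ξ, Subtype.ext hξ⟩
      unfold Gd.rT
      rw [h4, finrank_top, finrank_homog, add_comm 1 (k + 1 + 1), Nat.choose_succ_self_right]
    rw [h2] at h1
    rw [h1]
    nlinarith [ih]

end Pool.Agent.Helper53.TK
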